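import Mathlib

/-!
# A measure whose characteristic function decays has a smooth density
-/

set_option autoImplicit false
set_option linter.unusedSectionVars false

namespace Pool.Agent.R385.SD

open MeasureTheory Filter Topology
open scoped FourierTransform RealInnerProductSpace ENNReal

/-- the rescaled characteristic function -/
noncomputable def cf (μ : Measure ℂ) (v : ℂ) : ℂ := charFun μ ((2 * Real.pi) • v)

lemma cf_eq (μ : Measure ℂ) (v : ℂ) :
    cf μ v = ∫ y, Complex.exp (2 * Real.pi * Complex.I * (⟪y, v⟫ : ℝ)) ∂μ := by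
  unfold cf
  rw [charFun_apply]
  refine integral_congr_ae (Eventually.of_forall fun y => ?_)
  simp only
  congr 1
  rw [real_inner_smul_right]
  push_cast
  ring

/-- the density -/
noncomputable def Dn (μ : Measure ℂ) (x : ℂ) : ℂ := 𝓕 (cf μ) x

/-- the Gaussian regularisation -/
noncomputable def gr (μ : Measure ℂ) (c : ℝ) (x : ℂ) : ℝ :=
  ∫ y, Real.pi * c * Real.exp (-(Real.pi ^ 2 * c) * ‖y - x‖ ^ 2) ∂μ

lemma finrank_C : Module.finrank ℝ ℂ = 2 := Complex.finrank_real_complex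

lemma gauss_ft {c : ℝ} (hc : 0 < c) (x y : ℂ) :
    ∫ v : ℂ, Complex.exp (-(c : ℂ)⁻¹ * ‖v‖ ^ 2) * (Complex.exp ((-2 * Real.pi * (⟪v, x⟫ : ℝ) : ℝ) * Complex.I) *
      Complex.exp (2 * Real.pi * Complex.I * (⟪y, v⟫ : ℝ))) =
      ((Real.pi * c * Real.exp (-(Real.pi ^ 2 * c) * ‖y - x‖ ^ 2) : ℝ) : ℂ) := by
  have h1 := fourier_gaussian_innerProductSpace' (V := ℂ) (b := ((c⁻¹ : ℝ) : ℂ)) (by
    rw [Complex.ofReal_re]; positivity) y x
  rw [Real.fourier_eq'] at h1
  rw [finrank_C] at h1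
  have hc' : (c : ℂ) ≠ 0 := by exact_mod_cast hc.ne'
  have h2 : (Real.pi / ((c⁻¹ : ℝ) : ℂ)) ^ (((2 : ℕ) : ℂ) / 2) = Real.pi * c := by
    have : (((2 : ℕ) : ℂ) / 2) = 1 := by norm_num
    rw [this, Complex.cpow_one]
    push_cast
    field_simp
  rw [h2] at h1
  have h3 : Complex.exp (-(Real.pi : ℂ) ^ 2 * ‖y - x‖ ^ 2 / ((c⁻¹ : ℝ) : ℂ)) =
      ((Real.exp (-(Real.pi ^ 2 * c) * ‖y - x‖ ^ 2) : ℝ) : ℂ) := by
    push_cast
    congr 1
    field_simp
  rw [h3] at h1
  push_cast at h1 ⊢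
  rw [← h1]
  refine integral_congr_ae (Eventually.of_forall fun v => ?_)
  simp only [smul_eq_mul, ← Complex.exp_add]
  congr 1
  ring

lemma cont_cf (μ : Measure ℂ) [IsFiniteMeasure μ] : Continuous (cf μ) := by
  unfold cf
  exact continuous_charFun.comp (continuous_const_smul _)

lemma regular (μ : Measure ℂ) [IsFiniteMeasure μ] {c : ℝ} (hc : 0 < c) (x : ℂ) :
    ∫ v : ℂ, Complex.exp (-(c : ℂ)⁻¹ * ‖v‖ ^ 2) •
      (Complex.exp ((-2 * Real.pi * (⟪v, x⟫ : ℝ) : ℝ) * Complex.I) • cf μ v) = (gr μ c x : ℂ) := by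
  unfold gr
  rw [← integral_complex_ofReal]
  have h1 : ∀ v : ℂ, Complex.exp (-(c : ℂ)⁻¹ * ‖v‖ ^ 2) •
      (Complex.exp ((-2 * Real.pi * (⟪v, x⟫ : ℝ) : ℝ) * Complex.I) • cf μ v) =
      ∫ y, Complex.exp (-(c : ℂ)⁻¹ * ‖v‖ ^ 2) *
        (Complex.exp ((-2 * Real.pi * (⟪v, x⟫ : ℝ) : ℝ) * Complex.I) *
        Complex.exp (2 * Real.pi * Complex.I * (⟪y, v⟫ : ℝ))) ∂μ := by
    intro v
    rw [cf_eq, smul_eq_mul, smul_eq_mul, ← integral_const_mul, ← integral_const_mul]
  simp_rw [h1]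
  rw [integral_integral_swap]
  · refine integral_congr_ae (Eventually.of_forall fun y => ?_)
    simp only
    rw [gauss_ft hc]
  · -- integrability on the product
    have hg : Integrable (fun v : ℂ => Real.exp (-c⁻¹ * ‖v‖ ^ 2)) := by
      have := GaussianFourier.integrable_cexp_neg_mul_sq_norm_add (V := ℂ) (b := ((c⁻¹ : ℝ) : ℂ)) (by
        rw [Complex.ofReal_re]; positivity) 0 0
      have h2 := this.norm
      refine h2.congr (Eventually.of_forall fun v => ?_)
      simp only [Complex.norm_exp]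
      congr 1
      simp
      left
      norm_cast
    have h2 : Integrable (fun p : ℂ × ℂ => Real.exp (-c⁻¹ * ‖p.1‖ ^ 2) * (1 : ℝ)) (volume.prod μ) :=
      hg.mul_prod (integrable_const (1 : ℝ))
    refine h2.mono' ?_ (Eventually.of_forall fun p => ?_)
    · have h3 : Continuous (fun p : ℂ × ℂ => Complex.exp (-(c : ℂ)⁻¹ * ‖p.1‖ ^ 2) *
        (Complex.exp ((-2 * Real.pi * (⟪p.1, x⟫ : ℝ) : ℝ) * Complex.I) *
        Complex.exp (2 * Real.pi * Complex.I * (⟪p.2, p.1⟫ : ℝ)))) := by fun_prop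
      exact h3.aestronglyMeasurable
    · show ‖Complex.exp (-(c : ℂ)⁻¹ * ‖p.1‖ ^ 2) *
        (Complex.exp ((-2 * Real.pi * (⟪p.1, x⟫ : ℝ) : ℝ) * Complex.I) *
        Complex.exp (2 * Real.pi * Complex.I * (⟪p.2, p.1⟫ : ℝ)))‖ ≤ _
      rw [norm_mul, norm_mul, Complex.norm_exp_ofReal_mul_I, mul_one]
      have h4 : ‖Complex.exp (2 * Real.pi * Complex.I * (⟪p.2, p.1⟫ : ℝ))‖ = 1 := by
        have := Complex.norm_exp_ofReal_mul_I (2 * Real.pi * (⟪p.2, p.1⟫ : ℝ))
        rw [← this]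
        congr 2
        push_cast
        ring
      rw [h4, mul_one, mul_one, Complex.norm_exp]
      refine Real.exp_le_exp.2 (le_of_eq ?_)
      have : (-(c : ℂ)⁻¹ * (‖p.1‖ : ℂ) ^ 2) = ((-c⁻¹ * ‖p.1‖ ^ 2 : ℝ) : ℂ) := by push_cast; ring
      rw [this, Complex.ofReal_re]

lemma gr_nonneg (μ : Measure ℂ) {c : ℝ} (hc : 0 < c) (x : ℂ) : 0 ≤ gr μ c x := by
  unfold gr
  have := Real.pi_pos
  exact integral_nonneg fun y => by positivity

variable {μ : Measure ℂ} [IsFiniteMeasure μ]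

lemma int_cf (h : Integrable (charFun μ)) : Integrable (cf μ) := by
  unfold cf
  exact h.comp_smul (by positivity)

lemma tendsto_gr (h : Integrable (charFun μ)) (x : ℂ) :
    Tendsto (fun c : ℝ => (gr μ c x : ℂ)) atTop (𝓝 (Dn μ x)) := by
  have h1 : Integrable fun v : ℂ =>
      Complex.exp ((-2 * Real.pi * (⟪v, x⟫ : ℝ) : ℝ) * Complex.I) • cf μ v := by
    refine (int_cf h).norm.mono' ?_ (Eventually.of_forall fun v => ?_)
    · have := cont_cf μ
      have h3 : Continuous fun v : ℂ =>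
        Complex.exp ((-2 * Real.pi * (⟪v, x⟫ : ℝ) : ℝ) * Complex.I) • cf μ v := by fun_prop
      exact h3.aestronglyMeasurable
    · rw [norm_smul, Complex.norm_exp_ofReal_mul_I, one_mul]
  have h2 := Real.tendsto_integral_cexp_sq_smul h1
  unfold Dn
  rw [Real.fourier_eq']
  refine h2.congr' ?_
  filter_upwards [eventually_gt_atTop 0] with c hc
  rw [← regular μ hc x]
  simp only [Complex.ofReal_inv]

/-- the real density -/
noncomputable def Dr (μ : Measure ℂ) (x : ℂ) : ℝ := (Dn μ x).re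

lemma tendsto_gr' (h : Integrable (charFun μ)) (x : ℂ) :
    Tendsto (fun c : ℝ => gr μ c x) atTop (𝓝 (Dr μ x)) := by
  have h1 := (Complex.continuous_re.tendsto _).comp (tendsto_gr h x)
  refine h1.congr fun c => ?_
  simp

lemma Dr_nonneg (h : Integrable (charFun μ)) (x : ℂ) : 0 ≤ Dr μ x := by
  refine ge_of_tendsto (tendsto_gr' h x) ?_
  filter_upwards [eventually_gt_atTop 0] with c hc
  exact gr_nonneg μ hc x

lemma Dn_eq (h : Integrable (charFun μ)) (x : ℂ) : Dn μ x = (Dr μ x : ℂ) := by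
  have h1 := (Complex.continuous_ofReal.tendsto _).comp (tendsto_gr' h x)
  exact tendsto_nhds_unique (tendsto_gr h x) h1

lemma cont_Dn (h : Integrable (charFun μ)) : Continuous (Dn μ) := by
  unfold Dn
  have h1 : ContDiff ℝ ((0 : ℕ∞) : WithTop ℕ∞) (𝓕 (cf μ)) := by
    refine Real.contDiff_fourier fun n hn => ?_
    have hn0 : n = 0 := by simpa using hn
    subst hn0
    simpa using (int_cf h).norm
  exact h1.continuous

lemma gr_mass {c : ℝ} (hc : 0 < c) : ∫⁻ x, ENNReal.ofReal (gr μ c x) = μ Set.univ := by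
  have hpi := Real.pi_pos
  have hcont : Continuous fun p : ℂ × ℂ =>
      Real.pi * c * Real.exp (-(Real.pi ^ 2 * c) * ‖p.2 - p.1‖ ^ 2) := by fun_prop
  have h1 : ∀ x, ENNReal.ofReal (gr μ c x) =
      ∫⁻ y, ENNReal.ofReal (Real.pi * c * Real.exp (-(Real.pi ^ 2 * c) * ‖y - x‖ ^ 2)) ∂μ := by
    intro x
    unfold gr
    rw [ofReal_integral_eq_lintegral_ofReal]
    · refine Integrable.of_bound (C := Real.pi * c) ?_ (Eventually.of_forall fun y => ?_)
      · exact (by fun_prop : Continuous fun y : ℂ =>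
          Real.pi * c * Real.exp (-(Real.pi ^ 2 * c) * ‖y - x‖ ^ 2)).aestronglyMeasurable
      · rw [Real.norm_of_nonneg (by positivity)]
        have : Real.exp (-(Real.pi ^ 2 * c) * ‖y - x‖ ^ 2) ≤ 1 := by
          rw [Real.exp_le_one_iff]
          have : 0 ≤ Real.pi ^ 2 * c * ‖y - x‖ ^ 2 := by positivity
          linarith
        nlinarith [mul_pos hpi hc]
    · exact Eventually.of_forall fun y => by positivity
  simp_rw [h1]
  rw [lintegral_lintegral_swap (by
    exact (ENNReal.continuous_ofReal.comp hcont).measurable.aemeasurable)]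
  have h2 : ∀ y : ℂ, ∫⁻ x, ENNReal.ofReal (Real.pi * c *
      Real.exp (-(Real.pi ^ 2 * c) * ‖y - x‖ ^ 2)) = 1 := by
    intro y
    have h3 : ∫⁻ x, ENNReal.ofReal (Real.pi * c * Real.exp (-(Real.pi ^ 2 * c) * ‖y - x‖ ^ 2)) =
        ∫⁻ x : ℂ, ENNReal.ofReal (Real.pi * c * Real.exp (-(Real.pi ^ 2 * c) * ‖x‖ ^ 2)) :=
      lintegral_sub_left_eq_self (fun x : ℂ => ENNReal.ofReal (Real.pi * c *
        Real.exp (-(Real.pi ^ 2 * c) * ‖x‖ ^ 2))) y
    rw [h3]
    have hb : 0 < Real.pi ^ 2 * c := by positivity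
    have h4 := GaussianFourier.integral_rexp_neg_mul_sq_norm (V := ℂ) hb
    have hgi : Integrable (fun v : ℂ => Real.exp (-(Real.pi ^ 2 * c) * ‖v‖ ^ 2)) := by
      have := GaussianFourier.integrable_cexp_neg_mul_sq_norm_add (V := ℂ)
        (b := ((Real.pi ^ 2 * c : ℝ) : ℂ)) (by rw [Complex.ofReal_re]; exact hb) 0 0
      have h2 := this.norm
      refine h2.congr (Eventually.of_forall fun v => ?_)
      simp only [Complex.norm_exp]
      congr 1
      have h5 : (-((Real.pi ^ 2 * c : ℝ) : ℂ) * (‖v‖ : ℂ) ^ 2 + 0 * ((⟪(0 : ℂ), v⟫ : ℝ) : ℂ)) =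
        ((-(Real.pi ^ 2 * c) * ‖v‖ ^ 2 : ℝ) : ℂ) := by push_cast; ring
      rw [h5, Complex.ofReal_re]
    rw [← ofReal_integral_eq_lintegral_ofReal (hgi.const_mul _)
      (Eventually.of_forall fun v => by positivity), integral_const_mul, h4, finrank_C]
    have h6 : (Real.pi / (Real.pi ^ 2 * c)) ^ (((2 : ℕ) : ℝ) / 2) = 1 / (Real.pi * c) := by
      have : (((2 : ℕ) : ℝ) / 2) = 1 := by norm_num
      rw [this, Real.rpow_one]
      field_simp
    rw [h6, mul_one_div, div_self (by positivity), ENNReal.ofReal_one]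
  simp_rw [h2]
  rw [lintegral_one]

lemma Dr_mass (h : Integrable (charFun μ)) : ∫⁻ x, ENNReal.ofReal (Dr μ x) ≤ μ Set.univ := by
  have h1 : ∀ x, ENNReal.ofReal (Dr μ x) =
      liminf (fun n : ℕ => ENNReal.ofReal (gr μ ((n : ℝ) + 1) x)) atTop := by
    intro x
    have h2 : Tendsto (fun n : ℕ => ENNReal.ofReal (gr μ ((n : ℝ) + 1) x)) atTop
        (𝓝 (ENNReal.ofReal (Dr μ x))) :=
      (ENNReal.continuous_ofReal.tendsto _).comp ((tendsto_gr' h x).comp
        (tendsto_atTop_add_const_right _ _ tendsto_natCast_atTop_atTop))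
    exact h2.liminf_eq.symm
  simp_rw [h1]
  refine (lintegral_liminf_le' fun n => ?_).trans ?_
  · have hc : Continuous fun x => (gr μ ((n : ℝ) + 1) x) := by
      unfold gr
      have hpi := Real.pi_pos
      refine continuous_of_dominated (bound := fun _ => Real.pi * ((n : ℝ) + 1)) (fun x => ?_)
        (fun x => Eventually.of_forall fun y => ?_) (integrable_const _)
        (Eventually.of_forall fun y => by fun_prop)
      · exact (by fun_prop : Continuous fun y : ℂ => Real.pi * ((n : ℝ) + 1) *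
          Real.exp (-(Real.pi ^ 2 * ((n : ℝ) + 1)) * ‖y - x‖ ^ 2)).aestronglyMeasurable
      · rw [Real.norm_of_nonneg (by positivity)]
        have : Real.exp (-(Real.pi ^ 2 * ((n : ℝ) + 1)) * ‖y - x‖ ^ 2) ≤ 1 := by
          rw [Real.exp_le_one_iff]
          have : 0 ≤ Real.pi ^ 2 * ((n : ℝ) + 1) * ‖y - x‖ ^ 2 := by positivity
          linarith
        have h3 : 0 < Real.pi * ((n : ℝ) + 1) := by positivity
        nlinarith
    exact (ENNReal.continuous_ofReal.comp hc).measurable.aemeasurable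
  · have h2 : ∀ n : ℕ, ∫⁻ x, ENNReal.ofReal (gr μ ((n : ℝ) + 1) x) = μ Set.univ := fun n =>
      gr_mass (by positivity)
    simp_rw [h2]
    simp

lemma Dr_integrable (h : Integrable (charFun μ)) : Integrable (Dr μ) := by
  have hc : Continuous (Dr μ) := Complex.continuous_re.comp (cont_Dn h)
  refine ⟨hc.aestronglyMeasurable, ?_⟩
  rw [hasFiniteIntegral_iff_ofReal (Eventually.of_forall fun x => Dr_nonneg h x)]
  exact (Dr_mass h).trans_lt (measure_lt_top μ _)

/-- **A finite measure with integrable characteristic function has a continuous density.** -/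
theorem eq_withDensity (h : Integrable (charFun μ)) :
    μ = volume.withDensity fun x => ENNReal.ofReal (Dr μ x) := by
  have hc : Continuous (Dr μ) := Complex.continuous_re.comp (cont_Dn h)
  have hD := Dr_integrable h
  have hfin : IsFiniteMeasure (volume.withDensity fun x : ℂ => ENNReal.ofReal (Dr μ x)) := by
    refine isFiniteMeasure_withDensity_ofReal hD.2
  refine Measure.ext_of_charFun ?_
  funext t
  have hpi := Real.pi_pos
  have h1 : charFun μ t = cf μ ((2 * Real.pi)⁻¹ • t) := by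
    unfold cf
    rw [smul_smul, mul_inv_cancel₀ (by positivity), one_smul]
  have hDn : Integrable (𝓕 (cf μ)) := by
    have h3 : 𝓕 (cf μ) = fun x => ((Dr μ x : ℝ) : ℂ) := funext fun x => Dn_eq h x
    rw [h3]
    exact hD.ofReal
  have h2 := Continuous.fourierInv_fourier_eq (cont_cf μ) (int_cf h) hDn
  rw [h1, ← h2, Real.fourierInv_eq', charFun_apply,
    integral_withDensity_eq_integral_toReal_smul₀ (by
      exact (ENNReal.continuous_ofReal.comp hc).measurable.aemeasurable)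
      (Eventually.of_forall fun x => ENNReal.ofReal_lt_top)]
  refine integral_congr_ae (Eventually.of_forall fun x => ?_)
  simp only
  have h4 : 𝓕 (cf μ) x = ((Dr μ x : ℝ) : ℂ) := Dn_eq h x
  have h5 : ⟪x, (2 * Real.pi)⁻¹ • t⟫ = (2 * Real.pi)⁻¹ * ⟪x, t⟫ := real_inner_smul_right _ _ _
  rw [h4, h5, ENNReal.toReal_ofReal (Dr_nonneg h x), Complex.real_smul, smul_eq_mul, mul_comm]
  congr 2
  push_cast
  have : (Real.pi : ℂ) ≠ 0 := by exact_mod_cast hpi.ne'
  field_simp

theorem Dr_smooth (h : ∀ n : ℕ, Integrable fun t => ‖t‖ ^ n * ‖charFun μ t‖) :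
    ContDiff ℝ (⊤ : ℕ∞) (Dr μ) := by
  have hpi := Real.pi_pos
  have h1 : ContDiff ℝ (⊤ : ℕ∞) (𝓕 (cf μ)) := by
    refine Real.contDiff_fourier fun n _ => ?_
    have h2 := ((h n).comp_smul (R := 2 * Real.pi) (by positivity)).const_mul ((2 * Real.pi) ^ n)⁻¹
    refine h2.congr (Eventually.of_forall fun v => ?_)
    unfold cf
    simp only
    rw [norm_smul, Real.norm_of_nonneg (by positivity), mul_pow]
    field_simp
    rw [mul_pow, mul_pow]
    ring
  exact Complex.reCLM.contDiff.comp h1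

end Pool.Agent.R385.SD
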