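import Pool.Agent.R385.SD.Decay
import Pool.Agent.R385.SD.Dens
import Pool.Agent.R409.ED.Atom

/-!
# The characteristic function of the limit law
-/

set_option autoImplicit false
set_option linter.unusedSectionVars false

namespace Pool.Agent.R385.SD

open MeasureTheory Filter Topology NumberField IsDedekindDomain
open Pool.Agent.TH339.MP
open Pool.Agent.R409.ED
open Pool.Agent.R409.EV (nal bT bT_bound norm_nal nal_cpow)
open scoped ENNReal ComplexConjugate

variable {b : PP → ℂ} {M : ℝ}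

/-- the logarithm of the Euler factor at `p` is that of a polynomial of degree at most `D` without
zeros in the closed unit disc, not constant -/
def Rep (b : PP → ℂ) (p : Nat.Primes) (D : ℕ) : Prop :=
  ∃ (ι : Type) (_ : Fintype ι) (_ : DecidableEq ι) (_ : Nonempty ι) (a : ι → ℂ) (d : ι → ℕ),
    (∀ j, ‖a j‖ < 1) ∧ (∀ j, a j ≠ 0) ∧ (∀ j, 0 < d j) ∧ ∑ k, d k ≤ D ∧
    ∀ x : ℝ, hl b p ((x : ℝ) : UnitAddCircle) = LL a d x

/-- the local characteristic function -/
noncomputable def lc (b : PP → ℂ) (p : Nat.Primes) (w : ℂ) : ℂ :=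
  pmean b (Complex.I * conj w / 2) (Complex.I * w / 2) p

lemma EE_eq (w z : ℂ) : EE (Complex.I * conj w / 2) (Complex.I * w / 2) z =
    Complex.exp (Complex.I * ((conj w * z).re : ℝ)) := by
  unfold EE
  congr 1
  have h1 : (((conj w * z).re : ℝ) : ℂ) = (conj w * z + w * conj z) / 2 := by
    rw [Complex.re_eq_add_conj]
    simp
  rw [h1]
  ring

lemma norm_EE1 (w z : ℂ) : ‖EE (Complex.I * conj w / 2) (Complex.I * w / 2) z‖ = 1 := by
  rw [EE_eq, mul_comm]
  exact Complex.norm_exp_ofReal_mul_I _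

lemma lc_le (b : PP → ℂ) (p : Nat.Primes) (w : ℂ) : ‖lc b p w‖ ≤ 1 := by
  unfold lc pmean
  refine (norm_integral_le_of_norm_le_const (C := 1) (Eventually.of_forall fun θ => (norm_EE1 w _).le)).trans ?_
  simp [measureReal_def]

lemma lc_decay {p : Nat.Primes} {D : ℕ} (h : Rep b p D) : ∃ C : ℝ, 0 ≤ C ∧ ∀ w : ℂ, 1 ≤ ‖w‖ →
    ‖lc b p w‖ ≤ C * ‖w‖ ^ (-(1 / (8 * (2 * D : ℕ)) : ℝ)) := by
  obtain ⟨ι, i1, i2, i3, a, d, h1, h2, h3, h4, h5⟩ := h
  obtain ⟨C, hC, hw⟩ := decay h1 h2 h3 (m := 2 * D) (by omega)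
  refine ⟨C, hC, fun w hw1 => ?_⟩
  refine le_trans (le_of_eq ?_) (hw w hw1)
  congr 1
  unfold lc pmean
  have h6 := UnitAddCircle.intervalIntegral_preimage 0
    (fun θ : UnitAddCircle => EE (Complex.I * conj w / 2) (Complex.I * w / 2) (hl b p θ))
  rw [zero_add] at h6
  rw [← h6]
  refine intervalIntegral.integral_congr fun x _ => ?_
  show EE (Complex.I * conj w / 2) (Complex.I * w / 2) (hl b p ((x : ℝ) : UnitAddCircle)) = _
  rw [EE_eq, h5]

/-- **Decay of the characteristic function.** -/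
theorem charFun_decay {μ : Measure ℂ} [IsProbabilityMeasure μ] {D : ℕ}
    (hμ : ∀ c₁ c₂ : ℂ, ‖c₁ + conj c₂‖ * M < 1 →
      Tendsto (fun Y : ℕ => ∏ p : PY Y, pmean b c₁ c₂ p.1) atTop
        (𝓝 (∫ z, Complex.exp (c₁ * z + c₂ * conj z) ∂μ)))
    (hD : 0 < D) (hinf : {p : Nat.Primes | Rep b p D}.Infinite) (n : ℕ) :
    ∃ C : ℝ, 0 ≤ C ∧ ∀ w : ℂ, ‖charFun μ w‖ ≤ C * (1 + ‖w‖) ^ (-(n : ℝ)) := by
  classical
  obtain ⟨F, hF, hcard⟩ := hinf.exists_subset_card_eq (16 * D * n)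
  have hex : ∀ p : Nat.Primes, ∃ C : ℝ, 0 ≤ C ∧ (p ∈ F → ∀ w : ℂ, 1 ≤ ‖w‖ →
      ‖lc b p w‖ ≤ C * ‖w‖ ^ (-(1 / (8 * (2 * D : ℕ)) : ℝ))) := by
    intro p
    by_cases hp : p ∈ F
    · obtain ⟨C, hC, h⟩ := lc_decay (hF hp)
      exact ⟨C, hC, fun _ => h⟩
    · exact ⟨0, le_rfl, fun h => absurd h hp⟩
  choose C hC0 hC using hex
  have hD0 : (D : ℝ) ≠ 0 := by exact_mod_cast hD.ne'
  have hlim : ∀ w : ℂ, Tendsto (fun Y : ℕ => ∏ p : PY Y, lc b p.1 w) atTop (𝓝 (charFun μ w)) := by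
    intro w
    rw [charFun_eq]
    refine hμ _ _ ?_
    rw [c_zero, zero_mul]
    exact one_pos
  have hbig : ∀ w : ℂ, 1 ≤ ‖w‖ → ‖charFun μ w‖ ≤ (∏ p ∈ F, C p) * ‖w‖ ^ (-(n : ℝ)) := by
    intro w hw
    have hw0 : 0 < ‖w‖ := by linarith
    refine le_of_tendsto (hlim w).norm ?_
    have hY : ∀ᶠ Y : ℕ in atTop, ∀ p ∈ F, (p : ℕ) ≤ Y := by
      rw [Filter.eventually_all_finset]
      intro p _
      exact eventually_ge_atTop _
    filter_upwards [hY] with Y hY
    rw [norm_prod]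
    set F' : Finset (PY Y) := F.attach.image fun p => (⟨p.1, hY p.1 p.2⟩ : PY Y) with hF'
    have h1 : ∏ p : PY Y, ‖lc b p.1 w‖ ≤ ∏ p ∈ F', ‖lc b p.1 w‖ := by
      rw [← Finset.prod_mul_prod_compl F' (fun p : PY Y => ‖lc b p.1 w‖)]
      refine mul_le_of_le_one_right (Finset.prod_nonneg fun _ _ => norm_nonneg _) ?_
      exact Finset.prod_le_one (fun _ _ => norm_nonneg _) fun p _ => lc_le b p.1 w
    have h2 : ∏ p ∈ F', ‖lc b p.1 w‖ = ∏ p ∈ F, ‖lc b p w‖ := by
      rw [hF', Finset.prod_image]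
      · exact Finset.prod_attach F (fun p => ‖lc b p w‖)
      · intro p _ q _ hpq
        have := congrArg Subtype.val hpq
        exact Subtype.ext this
    refine h1.trans (h2.le.trans ?_)
    refine (Finset.prod_le_prod (fun _ _ => norm_nonneg _) fun p hp => hC p hp w hw).trans
      (le_of_eq ?_)
    rw [Finset.prod_mul_distrib, Finset.prod_const, hcard, ← Real.rpow_natCast,
      ← Real.rpow_mul hw0.le]
    congr 2
    push_cast
    field_simp
    norm_num
  refine ⟨(∏ p ∈ F, C p + 1) * 2 ^ (n : ℝ), ?_, fun w => ?_⟩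
  · have : 0 ≤ ∏ p ∈ F, C p := Finset.prod_nonneg fun p _ => hC0 p
    positivity
  · have hP : 0 ≤ ∏ p ∈ F, C p := Finset.prod_nonneg fun p _ => hC0 p
    have h0 : 0 < 1 + ‖w‖ := by positivity
    have hsplit : (∏ p ∈ F, C p + 1) * 2 ^ (n : ℝ) * (1 + ‖w‖) ^ (-(n : ℝ)) =
        (∏ p ∈ F, C p + 1) * (2 / (1 + ‖w‖)) ^ (n : ℝ) := by
      rw [Real.rpow_neg h0.le, Real.div_rpow (by norm_num) h0.le]
      ring
    rw [hsplit]
    rcases le_total 1 ‖w‖ with hw | hw
    · refine (hbig w hw).trans ?_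
      have hw0 : 0 < ‖w‖ := by linarith
      have h1 : ‖w‖ ^ (-(n : ℝ)) ≤ (2 / (1 + ‖w‖)) ^ (n : ℝ) := by
        rw [Real.rpow_neg hw0.le, ← Real.inv_rpow hw0.le]
        refine Real.rpow_le_rpow (by positivity) ?_ (Nat.cast_nonneg _)
        rw [inv_eq_one_div, div_le_div_iff₀ hw0 h0]
        linarith
      exact mul_le_mul (by linarith) h1 (by positivity) (by linarith)
    · have h1 : ‖charFun μ w‖ ≤ 1 := by
        have := norm_charFun_le (μ := μ) w
        simpa using this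
      refine h1.trans ?_
      have h2 : 1 ≤ (2 / (1 + ‖w‖)) ^ (n : ℝ) := by
        refine Real.one_le_rpow ?_ (Nat.cast_nonneg _)
        rw [le_div_iff₀ h0]
        linarith
      nlinarith

/-- **The density of the limit law.** -/
theorem smooth {μ : Measure ℂ} [IsProbabilityMeasure μ] {D : ℕ}
    (hμ : ∀ c₁ c₂ : ℂ, ‖c₁ + conj c₂‖ * M < 1 →
      Tendsto (fun Y : ℕ => ∏ p : PY Y, pmean b c₁ c₂ p.1) atTop
        (𝓝 (∫ z, Complex.exp (c₁ * z + c₂ * conj z) ∂μ)))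
    (hD : 0 < D) (hinf : {p : Nat.Primes | Rep b p D}.Infinite) :
    ContDiff ℝ (⊤ : ℕ∞) (Dr μ) ∧ (∀ x, 0 ≤ Dr μ x) ∧
      μ = volume.withDensity fun x => ENNReal.ofReal (Dr μ x) := by
  have hcont : Continuous (charFun μ) := continuous_charFun
  have hint : ∀ n : ℕ, Integrable fun t => ‖t‖ ^ n * ‖charFun μ t‖ := by
    intro n
    obtain ⟨C, hC, h⟩ := charFun_decay hμ hD hinf (n + 3)
    have h1 : Integrable fun t : ℂ => C * (1 + ‖t‖) ^ (-(3 : ℝ)) :=
      (integrable_one_add_norm (E := ℂ) (r := 3) (by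
        rw [Complex.finrank_real_complex]; norm_num)).const_mul C
    refine h1.mono' ?_ (Eventually.of_forall fun t => ?_)
    · exact ((continuous_norm.pow n).mul hcont.norm).aestronglyMeasurable
    · rw [Real.norm_of_nonneg (by positivity)]
      have h0 : 0 < 1 + ‖t‖ := by positivity
      calc ‖t‖ ^ n * ‖charFun μ t‖ ≤ (1 + ‖t‖) ^ n * (C * (1 + ‖t‖) ^ (-((n + 3 : ℕ) : ℝ))) := by
            refine mul_le_mul ?_ (h t) (norm_nonneg _) (by positivity)
            exact pow_le_pow_left₀ (norm_nonneg _) (by linarith) n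
        _ = C * (1 + ‖t‖) ^ (-(3 : ℝ)) := by
            rw [← Real.rpow_natCast, mul_left_comm, ← Real.rpow_add h0]
            congr 2
            push_cast
            ring
  have hint0 : Integrable (charFun μ) := by
    have := hint 0
    simp only [pow_zero, one_mul] at this
    exact (integrable_norm_iff hcont.aestronglyMeasurable).1 this
  exact ⟨Dr_smooth hint, Dr_nonneg hint0, eq_withDensity hint0⟩

end Pool.Agent.R385.SD
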