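import Pool.Agent.R385.SD.Local

/-!
# The Fourier transform of the law of the logarithm of an Euler factor
-/

set_option autoImplicit false
set_option linter.unusedSectionVars false

namespace Pool.Agent.R385.SD

open MeasureTheory Polynomial
open scoped ComplexConjugate

variable {ι : Type*} [Fintype ι] [DecidableEq ι] {a : ι → ℂ} {d : ι → ℕ}

lemma re_deriv {f : ℝ → ℂ} {f' : ℂ} {x : ℝ} (h : HasDerivAt f f' x) (c : ℂ) :
    HasDerivAt (fun x => (c * f x).re) (c * f').re x :=
  (Complex.reCLM.hasFDerivAt.comp_hasDerivAt x (h.const_mul c))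

/-- the mean of the almost stationary part -/
lemma stat_bound (ha : ∀ j, ‖a j‖ < 1) (ha0 : ∀ j, a j ≠ 0) (hd : ∀ j, 0 < d j) [Nonempty ι]
    {m : ℕ} (hm : 2 * ∑ k, d k ≤ m) {w : ℂ} (hw : ‖w‖ = 1) {r : ℝ} (hr : 0 < r) (hr1 : r ≤ 1)
    {e : ℝ} (he : 0 < e) :
    ∫ x in (0 : ℝ)..1, e ^ 2 / ((conj w * (2 * Real.pi * Complex.I * S1 a d (ex x))).re ^ 2 + e ^ 2) ≤
      m * r + e ^ 2 / (Real.pi / 4 ^ Fintype.card ι * ((∑ k, d k : ℕ) * ∏ k, ‖a k‖) * (r / 2) ^ m) ^ 2 := by
  set g : ℝ := (∑ k, d k : ℕ) * ∏ k, ‖a k‖ with hg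
  have hD : 0 < ∑ k, d k := Finset.sum_pos (fun k _ => hd k) Finset.univ_nonempty
  have hg0 : 0 < g := by
    refine mul_pos (by exact_mod_cast hD) (Finset.prod_pos fun k _ => norm_pos_iff.2 (ha0 k))
  set κ : ℝ := Real.pi / 4 ^ Fintype.card ι * g * (r / 2) ^ m with hκ
  have hpi := Real.pi_pos
  have hκ0 : 0 < κ := by positivity
  set K : UnitAddCircle → ℝ := fun θ =>
    e ^ 2 / ((conj w * (2 * Real.pi * Complex.I * S1 a d (AddCircle.toCircle θ : ℂ))).re ^ 2 + e ^ 2)
    with hK
  have h1 : ∫ x in (0 : ℝ)..1, e ^ 2 / ((conj w * (2 * Real.pi * Complex.I * S1 a d (ex x))).re ^ 2 +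
      e ^ 2) = ∫ θ : UnitAddCircle, K θ := by
    have := UnitAddCircle.intervalIntegral_preimage 0 K
    rw [zero_add] at this
    rw [← this]
    refine intervalIntegral.integral_congr fun x _ => ?_
    simp only [hK]
    rw [ex_circle]
  rw [h1]
  set Bad : Set UnitAddCircle :=
    {θ | ‖(GG a d w).eval (AddCircle.toCircle θ : ℂ)‖ < g * (r / 2) ^ m} with hBad
  have hc0 : Continuous fun θ : UnitAddCircle => (AddCircle.toCircle θ : ℂ) :=
    continuous_subtype_val.comp AddCircle.continuous_toCircle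
  have hBm : MeasurableSet Bad := by
    refine (isOpen_lt ?_ continuous_const).measurableSet
    exact ((GG a d w).continuous.comp hc0).norm
  have hBv : volume Bad ≤ ENNReal.ofReal (m * r) :=
    sublevel (GG a d w) ((GG_deg a d w).trans hm) hg0 (GG_zero a d hd hw).ge hr hr1
  have hKc : Continuous K := by
    simp only [hK]
    have := cont_S1 (d := d) ha
    refine Continuous.div continuous_const ?_ fun θ => by positivity
    exact ((Complex.continuous_re.comp (continuous_const.mul (continuous_const.mul this))).pow 2).add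
      continuous_const
  have hKi : Integrable K := hKc.integrable_of_hasCompactSupport (HasCompactSupport.of_compactSpace _)
  have hle : ∀ θ, K θ ≤ Bad.indicator (fun _ => (1 : ℝ)) θ + e ^ 2 / κ ^ 2 := by
    intro θ
    by_cases hθ : θ ∈ Bad
    · rw [Set.indicator_of_mem hθ]
      have h2 : K θ ≤ 1 := by
        simp only [hK]
        rw [div_le_one (by positivity)]
        nlinarith [sq_nonneg (conj w * (2 * Real.pi * Complex.I *
          S1 a d (AddCircle.toCircle θ : ℂ))).re]
      have h3 : 0 ≤ e ^ 2 / κ ^ 2 := by positivity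
      linarith
    · rw [Set.indicator_of_notMem hθ, zero_add]
      simp only [hK]
      have h2 : g * (r / 2) ^ m ≤ ‖(GG a d w).eval (AddCircle.toCircle θ : ℂ)‖ := by
        by_contra h
        push Not at h
        exact hθ h
      have h3 := im_lower (d := d) ha (z := (AddCircle.toCircle θ : ℂ)) (Circle.norm_coe _) w
      have h4 : (conj w * (2 * Real.pi * Complex.I * S1 a d (AddCircle.toCircle θ : ℂ))).re =
          -(2 * Real.pi) * (conj w * S1 a d (AddCircle.toCircle θ : ℂ)).im := by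
        have : conj w * (2 * Real.pi * Complex.I * S1 a d (AddCircle.toCircle θ : ℂ)) =
            ((2 * Real.pi : ℝ) : ℂ) * (Complex.I * (conj w * S1 a d (AddCircle.toCircle θ : ℂ))) := by
          push_cast
          ring
        rw [this, Complex.re_ofReal_mul, Complex.I_mul_re]
        ring
      rw [h4]
      have h5 : κ ^ 2 ≤ (-(2 * Real.pi) * (conj w * S1 a d (AddCircle.toCircle θ : ℂ)).im) ^ 2 := by
        rw [← sq_abs (-(2 * Real.pi) * _), abs_mul, abs_neg, abs_of_pos (by positivity : 0 < 2 * Real.pi)]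
        refine pow_le_pow_left₀ hκ0.le ?_ 2
        have h6 := h2.trans h3
        have h7 : (0 : ℝ) < 4 ^ Fintype.card ι := by positivity
        rw [hκ, mul_assoc, div_mul_eq_mul_div, div_le_iff₀ h7]
        calc Real.pi * (g * (r / 2) ^ m) ≤ Real.pi * (2 * 4 ^ Fintype.card ι *
              |(conj w * S1 a d (AddCircle.toCircle θ : ℂ)).im|) :=
              mul_le_mul_of_nonneg_left h6 hpi.le
          _ = _ := by ring
      refine div_le_div_of_nonneg_left (by positivity) (by positivity) ?_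
      nlinarith [sq_nonneg e]
  calc ∫ θ, K θ ≤ ∫ θ, (Bad.indicator (fun _ => (1 : ℝ)) θ + e ^ 2 / κ ^ 2) := by
        refine integral_mono hKi ?_ hle
        exact ((integrable_const (1 : ℝ)).indicator hBm).add (integrable_const _)
    _ = (volume Bad).toReal + e ^ 2 / κ ^ 2 := by
        rw [integral_add ((integrable_const (1 : ℝ)).indicator hBm) (integrable_const _),
          integral_indicator hBm]
        simp [measureReal_def]
    _ ≤ m * r + e ^ 2 / κ ^ 2 := by
        gcongr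
        refine ENNReal.toReal_le_of_le_ofReal (by positivity) hBv

/-- **Decay of the Fourier transform of the law of the logarithm of an Euler factor.** -/
theorem decay (ha : ∀ j, ‖a j‖ < 1) (ha0 : ∀ j, a j ≠ 0) (hd : ∀ j, 0 < d j) [Nonempty ι]
    {m : ℕ} (hm : 2 * ∑ k, d k ≤ m) : ∃ C : ℝ, 0 ≤ C ∧ ∀ w : ℂ, 1 ≤ ‖w‖ →
      ‖∫ x in (0 : ℝ)..1, Complex.exp (Complex.I * ((conj w * LL a d x).re : ℝ))‖ ≤
        C * ‖w‖ ^ (-(1 / (8 * m) : ℝ)) := by
  have hpi := Real.pi_pos
  have hD : 0 < ∑ k, d k := Finset.sum_pos (fun k _ => hd k) Finset.univ_nonempty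
  have hm0 : 0 < m := by omega
  have hm1 : (1 : ℝ) ≤ m := by exact_mod_cast hm0
  set g : ℝ := (∑ k, d k : ℕ) * ∏ k, ‖a k‖ with hg
  have hg0 : 0 < g := by
    refine mul_pos (by exact_mod_cast hD) (Finset.prod_pos fun k _ => norm_pos_iff.2 (ha0 k))
  set B : ℝ := (2 * Real.pi) ^ 2 * ∑ j, (d j : ℝ) ^ 2 / (1 - ‖a j‖) ^ 2 with hB
  have hB0 : 0 ≤ B := by positivity
  set A : ℝ := 4 ^ m / (Real.pi / 4 ^ Fintype.card ι * g) ^ 2 with hA
  have hA0 : 0 ≤ A := by positivity
  refine ⟨m + A + B, by positivity, fun w hw => ?_⟩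
  set L : ℝ := ‖w‖ with hL
  have hL0 : 0 < L := by linarith
  set δ : ℝ := 1 / (8 * m) with hδ
  have hδ0 : 0 < δ := by positivity
  have hδ1 : δ ≤ 1 / 8 := by
    rw [hδ]
    refine one_div_le_one_div_of_le (by norm_num) (by linarith)
  set u : ℂ := w / L with hu
  have hLc : (L : ℂ) ≠ 0 := by exact_mod_cast hL0.ne'
  have hu1 : ‖u‖ = 1 := by
    rw [hu, norm_div, Complex.norm_real, Real.norm_of_nonneg hL0.le, ← hL, div_self hL0.ne']
  have hwu : w = L * u := by rw [hu]; field_simp
  set r : ℝ := L ^ (-δ) with hr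
  have hr0 : 0 < r := Real.rpow_pos_of_pos hL0 _
  have hr1 : r ≤ 1 := Real.rpow_le_one_of_one_le_of_nonpos hw (by linarith)
  set e : ℝ := L ^ (-(1 / 4) : ℝ) with he
  have he0 : 0 < e := Real.rpow_pos_of_pos hL0 _
  have he2 : e ^ 2 = L ^ (-(1 / 2) : ℝ) := by
    rw [he, ← Real.rpow_natCast, ← Real.rpow_mul hL0.le]
    norm_num
  -- the phase
  have h1 : ∀ x, HasDerivAt (fun x => (conj u * LL a d x).re)
      ((conj u * (2 * Real.pi * Complex.I * S1 a d (ex x))).re) x := fun x =>
    re_deriv (LL_deriv ha x) _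
  have h2 : ∀ x, HasDerivAt (fun x => (conj u * (2 * Real.pi * Complex.I * S1 a d (ex x))).re)
      ((conj u * (2 * Real.pi * Complex.I * (2 * Real.pi * Complex.I * S2 a d (ex x)))).re) x :=
    fun x => re_deriv ((S1_deriv ha x).const_mul _) _
  have hcont : Continuous fun x =>
      (conj u * (2 * Real.pi * Complex.I * (2 * Real.pi * Complex.I * S2 a d (ex x)))).re := by
    have := cont_S2 (d := d) ha
    exact Complex.continuous_re.comp (continuous_const.mul (continuous_const.mul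
      (continuous_const.mul this)))
  have hper : (conj u * LL a d 1).re = (conj u * LL a d 0).re := by
    unfold LL
    rw [ex_one]
  have hper1 : (conj u * (2 * Real.pi * Complex.I * S1 a d (ex 1))).re =
      (conj u * (2 * Real.pi * Complex.I * S1 a d (ex 0))).re := by
    rw [ex_one]
  have hb : ∀ x, |(conj u * (2 * Real.pi * Complex.I * (2 * Real.pi * Complex.I *
      S2 a d (ex x)))).re| ≤ B := by
    intro x
    refine (Complex.abs_re_le_norm _).trans ?_
    have h3 : ‖(2 * Real.pi * Complex.I : ℂ)‖ = 2 * Real.pi := by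
      rw [norm_mul, norm_mul, Complex.norm_I, Complex.norm_real, Complex.norm_ofNat,
        Real.norm_of_nonneg hpi.le, mul_one]
    rw [norm_mul (conj u), norm_mul (2 * Real.pi * Complex.I : ℂ) (2 * Real.pi * Complex.I * _),
      norm_mul (2 * Real.pi * Complex.I : ℂ) (S2 a d (ex x)), Complex.norm_conj, hu1, one_mul, h3, hB,
      ← mul_assoc, ← sq]
    exact mul_le_mul_of_nonneg_left (S1_norm ha (norm_ex x)) (by positivity)
  have h3 := osc h1 h2 hcont hper hper1 hb hL0 he0
  have h4 := stat_bound ha ha0 hd hm hu1 hr0 hr1 he0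
  have h5 : ∫ x in (0 : ℝ)..1, Complex.exp (Complex.I * ((conj w * LL a d x).re : ℝ)) =
      ∫ x in (0 : ℝ)..1, Complex.exp (Complex.I * (L * (conj u * LL a d x).re : ℝ)) := by
    refine intervalIntegral.integral_congr fun x _ => ?_
    have h6 : (conj w * LL a d x).re = L * (conj u * LL a d x).re := by
      rw [hwu, map_mul, Complex.conj_ofReal, mul_assoc, Complex.re_ofReal_mul]
    show Complex.exp (Complex.I * ((conj w * LL a d x).re : ℝ)) = _
    rw [h6]
  rw [h5]
  refine h3.trans ?_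
  have h6 : B / (L * e ^ 2) ≤ B * r := by
    rw [he2, hr]
    have h7 : L * L ^ (-(1 / 2) : ℝ) = L ^ (1 / 2 : ℝ) := by
      nth_rewrite 1 [← Real.rpow_one L]
      rw [← Real.rpow_add hL0]
      norm_num
    rw [h7, div_eq_mul_inv, ← Real.rpow_neg hL0.le]
    refine mul_le_mul_of_nonneg_left ?_ hB0
    exact Real.rpow_le_rpow_of_exponent_le hw (by linarith)
  have h7 : e ^ 2 / (Real.pi / 4 ^ Fintype.card ι * g * (r / 2) ^ m) ^ 2 ≤ A * r := by
    have h8 : (r ^ m) ^ 2 = L ^ (-(1 / 4) : ℝ) := by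
      rw [← pow_mul, hr, ← Real.rpow_natCast, ← Real.rpow_mul hL0.le]
      congr 1
      rw [hδ]
      push_cast
      field_simp
      norm_num
    have h9 : (Real.pi / 4 ^ Fintype.card ι * g * (r / 2) ^ m) ^ 2 =
        (Real.pi / 4 ^ Fintype.card ι * g) ^ 2 * (L ^ (-(1 / 4) : ℝ) / 4 ^ m) := by
      rw [mul_pow, div_pow, div_pow, h8, ← pow_mul, mul_comm m 2, pow_mul]
      norm_num
    rw [h9, he2, hA]
    have h10 : L ^ (-(1 / 2) : ℝ) = L ^ (-(1 / 4) : ℝ) * L ^ (-(1 / 4) : ℝ) := by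
      rw [← Real.rpow_add hL0]
      norm_num
    have h11 : 0 < L ^ (-(1 / 4) : ℝ) := Real.rpow_pos_of_pos hL0 _
    have h12 : L ^ (-(1 / 4) : ℝ) ≤ r := Real.rpow_le_rpow_of_exponent_le hw (by linarith)
    have h13 : L ^ (-(1 / 2) : ℝ) / ((Real.pi / 4 ^ Fintype.card ι * g) ^ 2 *
        (L ^ (-(1 / 4) : ℝ) / 4 ^ m)) = 4 ^ m / (Real.pi / 4 ^ Fintype.card ι * g) ^ 2 *
          L ^ (-(1 / 4) : ℝ) := by
      rw [h10]
      field_simp
    rw [h13]
    exact mul_le_mul_of_nonneg_left h12 (by positivity)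
  calc _ ≤ (m * r + e ^ 2 / (Real.pi / 4 ^ Fintype.card ι * g * (r / 2) ^ m) ^ 2) +
        B / (L * e ^ 2) := add_le_add h4 le_rfl
    _ ≤ (m * r + A * r) + B * r := add_le_add (add_le_add le_rfl h7) h6
    _ = _ := by ring

end Pool.Agent.R385.SD
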