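import Pool.Agent.R385.SD.Var

/-!
# The distribution of `L₂(s, 𝒳)` on the line `Re s = 2`

Let `𝒳` be a smooth projective variety over a number field `k`.  The line `Re s = 2` is the edge of the
half-plane of absolute convergence of `L₂(s, 𝒳)`, and contains the point `s = 2` of Tate's conjecture.
The boundary values of `log L₂(s, 𝒳)` on this line have a limiting distribution on `ℂ`, with a density
of class `C^∞`.
-/

set_option autoImplicit false

namespace Pool.Agent.Results.MP_1f4fc7_nt.SmoothEdgeDensity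

open NumberField IsDedekindDomain MeasureTheory Filter Topology
open Pool.Agent.TH958.BV Pool.Agent.R409.EV

variable {K : Type} [Field K] [NumberField K]

/-- `l` is the boundary function of `log L₂(s, X)`: it is almost everywhere measurable, and for
all `τ` outside a set of Hausdorff dimension `0`, `log L₂(s, X)` tends to `l(τ)` and
`L₂(s, X)` to `e^{l(τ)}` as `s` tends to `2 + iτ` in any angle. -/
def IsBoundaryLog {N : ℕ} (α : HeightOneSpectrum (𝓞 K) → Fin N → ℂ) (l : ℝ → ℂ) : Prop :=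
  AEMeasurable l ∧ ∃ Z : Set ℝ, dimH Z = 0 ∧ ∀ τ : ℝ, τ ∉ Z → ∀ C : ℝ,
    Tendsto (logL α) (𝓝[angle 2 τ C] (edgePoint 2 τ)) (𝓝 (l τ)) ∧
    Tendsto (LProd α) (𝓝[angle 2 τ C] (edgePoint 2 τ)) (𝓝 (Complex.exp (l τ)))

/-- The function `g` is integrable on all long intervals, and its mean over an interval of length
`T` tends to `m` as `T → ∞`, uniformly in the position of the interval. -/
def UniformMean (g : ℝ → ℂ) (m : ℂ) : Prop :=
  ∀ ε : ℝ, 0 < ε → ∃ T₀ : ℝ, 0 < T₀ ∧ ∀ a T : ℝ, T₀ ≤ T →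
    IntervalIntegrable g volume a (a + T) ∧ ‖(T : ℂ)⁻¹ * (∫ t in a..(a + T), g t) - m‖ ≤ ε

/-- `D ≥ 0` is the density of the limiting distribution of `l`, for all continuous test functions `Φ`
with `|Φ(z)| ≤ C e^{κ|z|}`, `κ M < 1`. -/
def IsLimitDensity (l : ℝ → ℂ) (M : ℝ) (D : ℂ → ℝ) : Prop :=
  (∀ z, 0 ≤ D z) ∧ Integrable D ∧ ∫ z, D z = 1 ∧
  ∀ κ C : ℝ, 0 ≤ κ → κ * M < 1 → ∀ Φ : ℂ → ℂ, Continuous Φ →
    (∀ z, ‖Φ z‖ ≤ C * Real.exp (κ * ‖z‖)) →
    Integrable (fun z => (D z : ℂ) * Φ z) ∧ UniformMean (fun t => Φ (l t)) (∫ z, (D z : ℂ) * Φ z)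

/-- **The density of the limiting distribution of `L₂` on the line `Re s = 2`.**  Let `X` be a smooth
projective variety over a number field `K`, let `N > 0` be its second Betti number and `α_{v,j}` the
parameters of `L₂(s, X)`, the Frobenius eigenvalues on `H²` at almost all `v`, and put `M = [K : ℚ] N`.
The boundary function of `log L₂(s, X)` on the line `Re s = 2` has a limiting distribution with a
density which is infinitely often differentiable. -/
theorem result (K : Type) [Field K] [NumberField K] (n : ℕ)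
    (X : Set (MvPolynomial (Fin n) (𝓞 K))) (d N : ℕ) (_ : 0 < N)
    (α : HeightOneSpectrum (𝓞 K) → Fin N → ℂ) (_ : IsParameter X d 2 α) :
    ∃ (l : ℝ → ℂ) (D : ℂ → ℝ), IsBoundaryLog α l ∧
      IsLimitDensity l (Module.finrank ℚ K * N) D ∧ ContDiff ℝ (⊤ : ℕ∞) D := by
  rename_i hN hα
  have hb := bT_bound (i := 2) hα.2
  obtain ⟨μ, h1, h2⟩ := Pool.Agent.R409.ED.main hb
  have hD : 0 < Module.finrank ℚ K * N := Nat.mul_pos Module.finrank_pos hN
  obtain ⟨h3, h4, h5⟩ := Pool.Agent.R385.SD.smooth (μ := (μ : Measure ℂ)) h2 hD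
    (Pool.Agent.R385.SD.rep_infinite hN hα)
  set D : ℂ → ℝ := Pool.Agent.R385.SD.Dr (μ : Measure ℂ) with hDdef
  have hcont : Continuous D := h3.continuous
  have hmeas : Measurable fun x => ENNReal.ofReal (D x) :=
    (ENNReal.continuous_ofReal.comp hcont).measurable
  have hone : ∫⁻ z, ENNReal.ofReal (D z) = 1 := by
    have h6 : (μ : Measure ℂ) Set.univ = 1 := measure_univ
    rw [h5, withDensity_apply _ MeasurableSet.univ, Measure.restrict_univ] at h6
    exact h6
  have hint : Integrable D := by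
    refine ⟨hcont.aestronglyMeasurable, ?_⟩
    rw [hasFiniteIntegral_iff_ofReal (Eventually.of_forall h4), hone]
    exact ENNReal.one_lt_top
  refine ⟨Pool.Agent.TH339.MP.bl (bT 2 α), D, ⟨(Pool.Agent.TH339.MP.boundary hb).1, _,
    (Pool.Agent.TH339.MP.boundary hb).2.1, fun τ hτ C => ?_⟩, ⟨h4, hint, ?_, ?_⟩, h3⟩
  · have h1 := logL_angle hα.2 hτ C
    refine ⟨h1, ?_⟩
    refine ((Complex.continuous_exp.tendsto _).comp h1).congr' ?_
    filter_upwards [self_mem_nhdsWithin] with s hs
    exact (LProd_exp hα.2 hs.1).symm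
  · rw [integral_eq_lintegral_of_nonneg_ae (Eventually.of_forall h4) hcont.aestronglyMeasurable,
      hone, ENNReal.toReal_one]
  · intro κ C h0 hκ Φ hΦ hC
    obtain ⟨h6, h7⟩ := h1 κ C h0 hκ Φ hΦ hC
    have h8 : ∀ z, (ENNReal.ofReal (D z)).toReal • Φ z = (D z : ℂ) * Φ z := by
      intro z
      rw [ENNReal.toReal_ofReal (h4 z), Complex.real_smul]
    have h9 : ∫ z, Φ z ∂(μ : Measure ℂ) = ∫ z, (D z : ℂ) * Φ z := by
      rw [h5, integral_withDensity_eq_integral_toReal_smul hmeas
        (Eventually.of_forall fun x => ENNReal.ofReal_lt_top)]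
      exact integral_congr_ae (Eventually.of_forall h8)
    constructor
    · rw [h5, integrable_withDensity_iff_integrable_smul' hmeas
        (Eventually.of_forall fun x => ENNReal.ofReal_lt_top)] at h6
      exact h6.congr (Eventually.of_forall h8)
    · rw [← h9]
      exact h7

end Pool.Agent.Results.MP_1f4fc7_nt.SmoothEdgeDensity
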