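import Mathlib

/-!
# Oscillatory integrals over a period
-/

set_option autoImplicit false

namespace Pool.Agent.R385.SD

open MeasureTheory intervalIntegral

/-- **An oscillatory integral over a period.** -/
theorem osc {φ φ₁ φ₂ : ℝ → ℝ} (h1 : ∀ x, HasDerivAt φ (φ₁ x) x) (h2 : ∀ x, HasDerivAt φ₁ (φ₂ x) x)
    (hc : Continuous φ₂) (hp : φ 1 = φ 0) (hp1 : φ₁ 1 = φ₁ 0) {B : ℝ} (hB : ∀ x, |φ₂ x| ≤ B)
    {L : ℝ} (hL : 0 < L) {e : ℝ} (he : 0 < e) :
    ‖∫ x in (0 : ℝ)..1, Complex.exp (Complex.I * (L * φ x : ℝ))‖ ≤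
      (∫ x in (0 : ℝ)..1, e ^ 2 / (φ₁ x ^ 2 + e ^ 2)) + B / (L * e ^ 2) := by
  have hcφ : Continuous φ := continuous_iff_continuousAt.2 fun x => (h1 x).continuousAt
  have hcφ₁ : Continuous φ₁ := continuous_iff_continuousAt.2 fun x => (h2 x).continuousAt
  have hpos : ∀ x, 0 < φ₁ x ^ 2 + e ^ 2 := fun x => by positivity
  have hB0 : 0 ≤ B := (abs_nonneg _).trans (hB 0)
  set E : ℝ → ℂ := fun x => Complex.exp (Complex.I * (L * φ x : ℝ)) with hE
  have hEn : ∀ x, ‖E x‖ = 1 := by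
    intro x
    simp only [hE]
    rw [mul_comm]
    exact Complex.norm_exp_ofReal_mul_I _
  have hEc : Continuous E := by
    simp only [hE]
    fun_prop
  set ψ : ℝ → ℝ := fun x => φ₁ x / (φ₁ x ^ 2 + e ^ 2) with hψ
  set ψ₁ : ℝ → ℝ := fun x => (φ₂ x * (φ₁ x ^ 2 + e ^ 2) - φ₁ x * (2 * φ₁ x * φ₂ x)) /
    (φ₁ x ^ 2 + e ^ 2) ^ 2 with hψ₁
  have hψd : ∀ x, HasDerivAt ψ (ψ₁ x) x := by
    intro x
    have h3 : HasDerivAt (fun x => φ₁ x ^ 2 + e ^ 2) (2 * φ₁ x * φ₂ x) x := by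
      have := ((h2 x).pow 2).add_const (e ^ 2)
      simpa using this
    exact (h2 x).div h3 (hpos x).ne'
  have hψc : Continuous ψ := continuous_iff_continuousAt.2 fun x => (hψd x).continuousAt
  have hψ₁c : Continuous ψ₁ := by
    simp only [hψ₁]
    refine Continuous.div (by fun_prop) (by fun_prop) fun x => (pow_pos (hpos x) 2).ne'
  have hψb : ∀ x, |ψ₁ x| ≤ B / e ^ 2 := by
    intro x
    simp only [hψ₁]
    have h3 : (φ₂ x * (φ₁ x ^ 2 + e ^ 2) - φ₁ x * (2 * φ₁ x * φ₂ x)) =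
      φ₂ x * (e ^ 2 - φ₁ x ^ 2) := by ring
    rw [h3, abs_div, abs_mul, abs_of_pos (pow_pos (hpos x) 2)]
    have h4 : |e ^ 2 - φ₁ x ^ 2| ≤ φ₁ x ^ 2 + e ^ 2 := by
      rw [abs_le]
      constructor <;> nlinarith [sq_nonneg (φ₁ x), sq_nonneg e]
    rw [div_le_div_iff₀ (pow_pos (hpos x) 2) (by positivity)]
    have h5 : e ^ 2 ≤ φ₁ x ^ 2 + e ^ 2 := by nlinarith [sq_nonneg (φ₁ x)]
    calc |φ₂ x| * |e ^ 2 - φ₁ x ^ 2| * e ^ 2 ≤ B * (φ₁ x ^ 2 + e ^ 2) * (φ₁ x ^ 2 + e ^ 2) := by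
          refine mul_le_mul (mul_le_mul (hB x) h4 (abs_nonneg _) hB0) h5 (by positivity)
            (mul_nonneg hB0 (hpos x).le)
      _ = _ := by ring
  -- the derivative of `E ψ`
  set F : ℝ → ℂ := fun x => E x * (ψ x : ℂ) with hF
  have hEd : ∀ x, HasDerivAt E (E x * (Complex.I * (L * φ₁ x : ℝ))) x := by
    intro x
    have h3 : HasDerivAt (fun x => Complex.I * ((L * φ x : ℝ) : ℂ)) (Complex.I * (L * φ₁ x : ℝ)) x :=
      (((h1 x).const_mul L).ofReal_comp).const_mul Complex.I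
    exact h3.cexp
  have hFd : ∀ x, HasDerivAt F (E x * (Complex.I * (L * φ₁ x : ℝ)) * (ψ x : ℂ) +
      E x * (ψ₁ x : ℂ)) x := fun x => (hEd x).mul (hψd x).ofReal_comp
  have hint : ∫ x in (0 : ℝ)..1, (E x * (Complex.I * (L * φ₁ x : ℝ)) * (ψ x : ℂ) +
      E x * (ψ₁ x : ℂ)) = 0 := by
    rw [integral_eq_sub_of_hasDerivAt (fun x _ => hFd x) (by
      apply Continuous.intervalIntegrable
      fun_prop)]
    simp only [hF, hE, hψ]
    rw [hp, hp1, sub_self]
  have hsplit : ∫ x in (0 : ℝ)..1, E x = (∫ x in (0 : ℝ)..1, E x * (e ^ 2 / (φ₁ x ^ 2 + e ^ 2) : ℝ)) -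
      (Complex.I * (L : ℂ))⁻¹ * ∫ x in (0 : ℝ)..1, E x * (ψ₁ x : ℂ) := by
    have h3 : ∫ x in (0 : ℝ)..1, E x = (∫ x in (0 : ℝ)..1, E x * (e ^ 2 / (φ₁ x ^ 2 + e ^ 2) : ℝ)) +
        ∫ x in (0 : ℝ)..1, (Complex.I * (L : ℂ))⁻¹ * (E x * (Complex.I * (L * φ₁ x : ℝ)) * (ψ x : ℂ)) := by
      rw [← intervalIntegral.integral_add]
      · refine integral_congr fun x _ => ?_
        simp only [hψ]
        have h4 : ((φ₁ x : ℂ) ^ 2 + (e : ℂ) ^ 2) ≠ 0 := by exact_mod_cast (hpos x).ne'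
        have h5 : (L : ℂ) ≠ 0 := by exact_mod_cast hL.ne'
        push_cast
        field_simp
        ring
      · apply Continuous.intervalIntegrable
        refine hEc.mul (Complex.continuous_ofReal.comp ?_)
        exact Continuous.div continuous_const (by fun_prop) fun x => (hpos x).ne'
      · apply Continuous.intervalIntegrable
        fun_prop
    rw [h3, sub_eq_add_neg]
    congr 1
    rw [intervalIntegral.integral_const_mul, ← mul_neg]
    congr 1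
    rw [intervalIntegral.integral_add] at hint
    · exact eq_neg_of_add_eq_zero_left hint
    · apply Continuous.intervalIntegrable
      fun_prop
    · apply Continuous.intervalIntegrable
      fun_prop
  rw [show (∫ x in (0 : ℝ)..1, Complex.exp (Complex.I * (L * φ x : ℝ))) = ∫ x in (0 : ℝ)..1, E x from rfl,
    hsplit]
  refine (norm_sub_le _ _).trans (add_le_add ?_ ?_)
  · refine (intervalIntegral.norm_integral_le_integral_norm zero_le_one).trans (le_of_eq ?_)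
    refine intervalIntegral.integral_congr fun x _ => ?_
    show ‖E x * ((e ^ 2 / (φ₁ x ^ 2 + e ^ 2) : ℝ) : ℂ)‖ = e ^ 2 / (φ₁ x ^ 2 + e ^ 2)
    rw [norm_mul, hEn, one_mul, Complex.norm_real, Real.norm_of_nonneg (by positivity)]
  · rw [norm_mul, norm_inv, norm_mul, Complex.norm_I, one_mul, Complex.norm_real,
      Real.norm_of_nonneg hL.le]
    have h3 : ‖∫ x in (0 : ℝ)..1, E x * (ψ₁ x : ℂ)‖ ≤ B / e ^ 2 := by
      have := norm_integral_le_of_norm_le_const (a := (0 : ℝ)) (b := 1) (C := B / e ^ 2)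
        (f := fun x => E x * (ψ₁ x : ℂ)) (fun x _ => by
          rw [norm_mul, hEn, one_mul, Complex.norm_real]
          exact hψb x)
      simpa using this
    rw [div_mul_eq_div_div_swap, div_eq_mul_inv (B / e ^ 2) L, mul_comm]
    exact mul_le_mul_of_nonneg_right h3 (by positivity)

end Pool.Agent.R385.SD
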