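import Pool.Agent.R385.SD.Sub
import Pool.Agent.R385.SD.Osc

/-!
# The logarithm of an Euler factor on the unit circle
-/

set_option autoImplicit false
set_option linter.unusedSectionVars false

namespace Pool.Agent.R385.SD

open MeasureTheory Polynomial
open scoped ComplexConjugate

variable {ι : Type*} [Fintype ι] [DecidableEq ι]

/-- `e(x) = exp(2πix)` -/
noncomputable def ex (x : ℝ) : ℂ := Complex.exp (2 * Real.pi * x * Complex.I)

lemma norm_ex (x : ℝ) : ‖ex x‖ = 1 := by
  unfold ex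
  have := Complex.norm_exp_ofReal_mul_I (2 * Real.pi * x)
  push_cast at this
  exact this

lemma ex_circle (x : ℝ) : (AddCircle.toCircle ((x : ℝ) : UnitAddCircle) : ℂ) = ex x := by
  rw [AddCircle.toCircle_apply_mk, Circle.coe_exp]
  unfold ex
  congr 1
  push_cast
  ring

lemma ex_deriv (x : ℝ) : HasDerivAt ex (2 * Real.pi * Complex.I * ex x) x := by
  unfold ex
  have h1 : HasDerivAt (fun x : ℝ => (2 * Real.pi * (x : ℂ) * Complex.I)) (2 * Real.pi * Complex.I) x := by
    have h2 : HasDerivAt (fun x : ℝ => (x : ℂ)) 1 x := Complex.ofRealCLM.hasDerivAt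
    have h3 := (h2.const_mul (2 * Real.pi : ℂ)).mul_const Complex.I
    simpa using h3
  have h2 := h1.cexp
  convert h2 using 1
  ring

lemma ex_one : ex 1 = ex 0 := by
  unfold ex
  simp [Complex.exp_two_pi_mul_I]

/-- the logarithm of the Euler factor -/
noncomputable def LL (a : ι → ℂ) (d : ι → ℕ) (x : ℝ) : ℂ :=
  ∑ j, -Complex.log (1 - a j * ex x ^ d j)

/-- the first derivative -/
noncomputable def S1 (a : ι → ℂ) (d : ι → ℕ) (z : ℂ) : ℂ :=
  ∑ j, (d j : ℂ) * (a j * z ^ d j) / (1 - a j * z ^ d j)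

/-- the second derivative -/
noncomputable def S2 (a : ι → ℂ) (d : ι → ℕ) (z : ℂ) : ℂ :=
  ∑ j, (d j : ℂ) ^ 2 * (a j * z ^ d j) / (1 - a j * z ^ d j) ^ 2

section
variable {a : ι → ℂ} {d : ι → ℕ}

lemma az_norm (a : ι → ℂ) (d : ι → ℕ) {z : ℂ} (hz : ‖z‖ = 1) (j : ι) :
    ‖a j * z ^ d j‖ = ‖a j‖ := by
  rw [norm_mul, norm_pow, hz, one_pow, mul_one]

lemma one_sub_ne (ha : ∀ j, ‖a j‖ < 1) {z : ℂ} (hz : ‖z‖ = 1) (j : ι) : 1 - a j * z ^ d j ≠ 0 := by
  intro h
  have h1 := az_norm a d hz j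
  rw [← sub_eq_zero.1 h, norm_one] at h1
  have := ha j
  linarith

lemma pw_deriv (a : ι → ℂ) (d : ι → ℕ) (j : ι) (x : ℝ) : HasDerivAt (fun x => a j * ex x ^ d j)
    (2 * Real.pi * Complex.I * ((d j : ℂ) * (a j * ex x ^ d j))) x := by
  have h1 : HasDerivAt (fun y => a j * ex y ^ d j)
      (a j * ((d j : ℂ) * ex x ^ (d j - 1) * (2 * Real.pi * Complex.I * ex x))) x :=
    ((ex_deriv x).pow (d j)).const_mul (a j)
  refine h1.congr_deriv ?_
  rcases Nat.eq_zero_or_pos (d j) with h | h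
  · rw [h]; simp
  · obtain ⟨k, hk⟩ := Nat.exists_eq_add_of_lt h
    rw [zero_add] at hk
    rw [hk]
    simp only [Nat.add_sub_cancel]
    rw [pow_succ]
    ring

lemma LL_deriv (ha : ∀ j, ‖a j‖ < 1) (x : ℝ) :
    HasDerivAt (LL a d) (2 * Real.pi * Complex.I * S1 a d (ex x)) x := by
  unfold LL S1
  rw [Finset.mul_sum]
  refine HasDerivAt.fun_sum fun j _ => ?_
  have h1 : HasDerivAt (fun x => 1 - a j * ex x ^ d j)
      (-(2 * Real.pi * Complex.I * ((d j : ℂ) * (a j * ex x ^ d j)))) x :=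
    (pw_deriv a d j x).const_sub 1
  have h2 : 1 - a j * ex x ^ d j ∈ Complex.slitPlane := by
    rw [sub_eq_add_neg]
    refine Complex.mem_slitPlane_of_norm_lt_one ?_
    rw [norm_neg, az_norm a d (norm_ex x)]
    exact ha j
  have h3 : HasDerivAt (fun x => -Complex.log (1 - a j * ex x ^ d j))
      (-(-(2 * Real.pi * Complex.I * ((d j : ℂ) * (a j * ex x ^ d j))) / (1 - a j * ex x ^ d j))) x :=
    (h1.clog_real h2).neg
  refine h3.congr_deriv ?_
  rw [neg_div, neg_neg, mul_div_assoc]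

lemma S1_deriv (ha : ∀ j, ‖a j‖ < 1) (x : ℝ) :
    HasDerivAt (fun x => S1 a d (ex x)) (2 * Real.pi * Complex.I * S2 a d (ex x)) x := by
  unfold S1 S2
  rw [Finset.mul_sum]
  refine HasDerivAt.fun_sum fun j _ => ?_
  have hne := one_sub_ne (d := d) ha (norm_ex x) j
  have h1 : HasDerivAt (fun x => 1 - a j * ex x ^ d j)
      (-(2 * Real.pi * Complex.I * ((d j : ℂ) * (a j * ex x ^ d j)))) x :=
    (pw_deriv a d j x).const_sub 1
  have h2 : HasDerivAt (fun x => (d j : ℂ) * (a j * ex x ^ d j) / (1 - a j * ex x ^ d j)) _ x :=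
    ((pw_deriv a d j x).const_mul (d j : ℂ)).div h1 hne
  refine h2.congr_deriv ?_
  rw [mul_div_assoc', div_eq_div_iff (pow_ne_zero 2 hne) (pow_ne_zero 2 hne)]
  ring

lemma S1_norm (ha : ∀ j, ‖a j‖ < 1) {z : ℂ} (hz : ‖z‖ = 1) :
    ‖S2 a d z‖ ≤ ∑ j, (d j : ℝ) ^ 2 / (1 - ‖a j‖) ^ 2 := by
  unfold S2
  refine norm_sum_le_of_le _ fun j _ => ?_
  have h1 : 0 < 1 - ‖a j‖ := by
    have := ha j
    linarith
  have h2 : 1 - ‖a j‖ ≤ ‖1 - a j * z ^ d j‖ := by
    have := norm_sub_norm_le (1 : ℂ) (a j * z ^ d j)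
    rw [norm_one, az_norm a d hz] at this
    exact this
  rw [norm_div, norm_mul, norm_pow, norm_pow, az_norm a d hz, Complex.norm_natCast]
  refine div_le_div₀ (by positivity) ?_ (by positivity) (pow_le_pow_left₀ h1.le h2 2)
  have := ha j
  nlinarith [sq_nonneg (d j : ℝ), norm_nonneg (a j)]

lemma cont_S1 (ha : ∀ j, ‖a j‖ < 1) : Continuous fun θ : UnitAddCircle => S1 a d (AddCircle.toCircle θ : ℂ) := by
  unfold S1
  have h0 : Continuous fun θ : UnitAddCircle => (AddCircle.toCircle θ : ℂ) :=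
    continuous_subtype_val.comp AddCircle.continuous_toCircle
  refine continuous_finsetSum _ fun j _ => ?_
  refine Continuous.div (by fun_prop) (by fun_prop) fun θ => ?_
  exact one_sub_ne ha (Circle.norm_coe _) j

lemma cont_S2 (ha : ∀ j, ‖a j‖ < 1) : Continuous fun x : ℝ => S2 a d (ex x) := by
  unfold S2
  have h0 : Continuous ex := continuous_iff_continuousAt.2 fun x => (ex_deriv x).continuousAt
  refine continuous_finsetSum _ fun j _ => ?_
  refine Continuous.div (by fun_prop) (by fun_prop) fun θ => ?_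
  exact pow_ne_zero 2 (one_sub_ne ha (norm_ex _) j)

end

/-- products of factors -/
noncomputable def Pj (a : ι → ℂ) (d : ι → ℕ) (s : Finset ι) : ℂ[X] := ∏ k ∈ s, (1 - C (a k) * X ^ d k)

/-- products of reciprocal factors -/
noncomputable def Qj (a : ι → ℂ) (d : ι → ℕ) (s : Finset ι) : ℂ[X] :=
  ∏ k ∈ s, (X ^ d k - C (conj (a k)))

/-- numerator of `S1` -/
noncomputable def TT (a : ι → ℂ) (d : ι → ℕ) : ℂ[X] :=
  ∑ j, C ((d j : ℂ) * a j) * X ^ d j * Pj a d (Finset.univ.erase j)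

/-- numerator of the conjugate of `S1` -/
noncomputable def TS (a : ι → ℂ) (d : ι → ℕ) : ℂ[X] :=
  ∑ j, C ((d j : ℂ) * conj (a j)) * Qj a d (Finset.univ.erase j)

/-- the polynomial whose small values are the almost stationary points -/
noncomputable def GG (a : ι → ℂ) (d : ι → ℕ) (w : ℂ) : ℂ[X] :=
  C (conj w) * (TT a d * Qj a d Finset.univ) - C w * (TS a d * Pj a d Finset.univ)

lemma Pj_deg (a : ι → ℂ) (d : ι → ℕ) (s : Finset ι) : (Pj a d s).natDegree ≤ ∑ k ∈ s, d k := by
  unfold Pj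
  refine (natDegree_prod_le _ _).trans (Finset.sum_le_sum fun k _ => ?_)
  refine (natDegree_sub_le _ _).trans (max_le (by simp) ?_)
  exact natDegree_C_mul_X_pow_le _ _

lemma Qj_deg (a : ι → ℂ) (d : ι → ℕ) (s : Finset ι) : (Qj a d s).natDegree ≤ ∑ k ∈ s, d k := by
  unfold Qj
  refine (natDegree_prod_le _ _).trans (Finset.sum_le_sum fun k _ => ?_)
  refine (natDegree_sub_le _ _).trans (max_le (by simp) (by simp))

lemma TT_deg (a : ι → ℂ) (d : ι → ℕ) : (TT a d).natDegree ≤ ∑ k, d k := by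
  unfold TT
  refine natDegree_sum_le_of_forall_le _ _ fun j _ => ?_
  refine natDegree_mul_le.trans ?_
  rw [← Finset.add_sum_erase Finset.univ d (Finset.mem_univ j)]
  exact add_le_add (natDegree_C_mul_X_pow_le _ _) (Pj_deg a d _)

lemma TS_deg (a : ι → ℂ) (d : ι → ℕ) : (TS a d).natDegree ≤ ∑ k, d k := by
  unfold TS
  refine natDegree_sum_le_of_forall_le _ _ fun j _ => ?_
  refine natDegree_mul_le.trans ?_
  rw [natDegree_C, zero_add]
  exact (Qj_deg a d _).trans (Finset.sum_le_sum_of_subset (Finset.erase_subset _ _))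

lemma GG_deg (a : ι → ℂ) (d : ι → ℕ) (w : ℂ) : (GG a d w).natDegree ≤ 2 * ∑ k, d k := by
  unfold GG
  refine (natDegree_sub_le _ _).trans (max_le ?_ ?_)
  · refine (natDegree_C_mul_le _ _).trans (natDegree_mul_le.trans ?_)
    have h1 := TT_deg a d
    have h2 := Qj_deg a d Finset.univ
    omega
  · refine (natDegree_C_mul_le _ _).trans (natDegree_mul_le.trans ?_)
    have h1 := TS_deg a d
    have h2 := Pj_deg a d Finset.univ
    omega

lemma GG_zero (a : ι → ℂ) (d : ι → ℕ) (hd : ∀ j, 0 < d j) {w : ℂ} (hw : ‖w‖ = 1) :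
    ‖(GG a d w).eval 0‖ = (∑ k, d k : ℕ) * ∏ k, ‖a k‖ := by
  have h1 : (TT a d).eval 0 = 0 := by
    unfold TT
    rw [eval_finsetSum]
    refine Finset.sum_eq_zero fun j _ => ?_
    rw [eval_mul, eval_mul, eval_pow, eval_X, zero_pow (hd j).ne', mul_zero, zero_mul]
  have h2 : (Pj a d Finset.univ).eval 0 = 1 := by
    unfold Pj
    rw [eval_prod]
    refine Finset.prod_eq_one fun j _ => ?_
    rw [eval_sub, eval_mul, eval_pow, eval_X, zero_pow (hd j).ne', mul_zero, eval_one, sub_zero]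
  have h3 : (TS a d).eval 0 = -((∑ k, d k : ℕ) : ℂ) * ∏ k, -(conj (a k)) := by
    unfold TS
    rw [eval_finsetSum]
    have h4 : ∀ j, (C ((d j : ℂ) * conj (a j)) * Qj a d (Finset.univ.erase j)).eval 0 =
        -(d j : ℂ) * ∏ k, -(conj (a k)) := by
      intro j
      rw [eval_mul, eval_C]
      unfold Qj
      rw [eval_prod, ← Finset.mul_prod_erase Finset.univ (fun k => -(conj (a k))) (Finset.mem_univ j)]
      have h5 : ∀ k, (X ^ d k - C (conj (a k)) : ℂ[X]).eval 0 = -(conj (a k)) := by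
        intro k
        rw [eval_sub, eval_pow, eval_X, zero_pow (hd k).ne', eval_C, zero_sub]
      simp_rw [h5]
      ring
    simp_rw [h4]
    rw [← Finset.sum_mul, Finset.sum_neg_distrib]
    push_cast
    rfl
  unfold GG
  rw [eval_sub, eval_mul, eval_mul, h1, zero_mul, mul_zero, zero_sub, norm_neg, eval_mul, eval_mul,
    h2, mul_one, h3, eval_C, norm_mul, hw, one_mul, norm_mul, norm_neg, Complex.norm_natCast,
    norm_prod]
  congr 1
  refine Finset.prod_congr rfl fun k _ => ?_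
  rw [norm_neg, Complex.norm_conj]

section
variable {a : ι → ℂ} {d : ι → ℕ}

lemma S1_mul (ha : ∀ j, ‖a j‖ < 1) {z : ℂ} (hz : ‖z‖ = 1) :
    S1 a d z * (Pj a d Finset.univ).eval z = (TT a d).eval z := by
  unfold S1 TT
  rw [eval_finsetSum, Finset.sum_mul]
  refine Finset.sum_congr rfl fun j _ => ?_
  unfold Pj
  rw [eval_prod, eval_mul, eval_prod, ← Finset.mul_prod_erase Finset.univ _ (Finset.mem_univ j)]
  have h1 := one_sub_ne (d := d) ha hz j
  simp only [eval_mul, eval_C, eval_pow, eval_X, eval_sub, eval_one]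
  rw [← mul_assoc, div_mul_cancel₀ _ h1]
  ring

lemma conj_S1_mul (ha : ∀ j, ‖a j‖ < 1) {z : ℂ} (hz : ‖z‖ = 1) :
    conj (S1 a d z) * (Qj a d Finset.univ).eval z = (TS a d).eval z := by
  unfold S1 TS
  rw [eval_finsetSum, map_sum, Finset.sum_mul]
  refine Finset.sum_congr rfl fun j _ => ?_
  unfold Qj
  rw [eval_prod, eval_mul, eval_prod, ← Finset.mul_prod_erase Finset.univ _ (Finset.mem_univ j)]
  have h1 := one_sub_ne (d := d) ha hz j
  have hz0 : z ≠ 0 := by
    rintro rfl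
    simp at hz
  have hcz : conj z = z⁻¹ := by
    rw [Complex.inv_def, Complex.normSq_eq_norm_sq, hz]
    simp
  have h2 : (1 - conj (a j) * (z⁻¹) ^ d j) ≠ 0 := by
    intro h
    apply h1
    have := congrArg conj h
    simpa [hcz] using this
  rw [eval_C]
  simp only [eval_sub, eval_pow, eval_X, eval_C]
  rw [map_div₀, map_mul, map_mul, map_sub, map_mul, map_one, map_pow, hcz, Complex.conj_natCast,
    ← mul_assoc]
  congr 1
  have hu : z ^ d j * (z⁻¹) ^ d j = 1 := by rw [← mul_pow, mul_inv_cancel₀ hz0, one_pow]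
  rw [div_mul_eq_mul_div, div_eq_iff h2]
  linear_combination ((d j : ℂ) * conj (a j)) * hu

lemma im_lower (ha : ∀ j, ‖a j‖ < 1) {z : ℂ} (hz : ‖z‖ = 1) (w : ℂ) :
    ‖(GG a d w).eval z‖ ≤ 2 * 4 ^ Fintype.card ι * |(conj w * S1 a d z).im| := by
  have h1 : (GG a d w).eval z = (2 * Complex.I * ((conj w * S1 a d z).im : ℂ)) *
      ((Pj a d Finset.univ).eval z * (Qj a d Finset.univ).eval z) := by
    unfold GG
    rw [eval_sub, eval_mul, eval_mul, eval_mul, eval_mul, eval_C, eval_C, ← S1_mul ha hz,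
      ← conj_S1_mul ha hz]
    have h2 : (2 * Complex.I * ((conj w * S1 a d z).im : ℂ)) =
        conj w * S1 a d z - w * conj (S1 a d z) := by
      have h3 := Complex.sub_conj (conj w * S1 a d z)
      rw [map_mul, Complex.conj_conj] at h3
      rw [h3]
      push_cast
      ring
    rw [h2]
    ring
  have hP : ‖(Pj a d Finset.univ).eval z‖ ≤ 2 ^ Fintype.card ι := by
    unfold Pj
    rw [eval_prod, norm_prod]
    refine (Finset.prod_le_prod (fun _ _ => norm_nonneg _) (g := fun _ => (2 : ℝ)) fun j _ => ?_).trans ?_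
    · simp only [eval_mul, eval_C, eval_pow, eval_X, eval_sub, eval_one]
      refine (norm_sub_le _ _).trans ?_
      rw [norm_one, az_norm a d hz]
      have := ha j
      linarith
    · rw [Finset.prod_const, Finset.card_univ]
  have hQ : ‖(Qj a d Finset.univ).eval z‖ ≤ 2 ^ Fintype.card ι := by
    unfold Qj
    rw [eval_prod, norm_prod]
    refine (Finset.prod_le_prod (fun _ _ => norm_nonneg _) (g := fun _ => (2 : ℝ)) fun j _ => ?_).trans ?_
    · simp only [eval_C, eval_pow, eval_X, eval_sub]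
      refine (norm_sub_le _ _).trans ?_
      rw [norm_pow, hz, one_pow, Complex.norm_conj]
      have := ha j
      linarith
    · rw [Finset.prod_const, Finset.card_univ]
  rw [h1, norm_mul, norm_mul, norm_mul, norm_mul, Complex.norm_I, mul_one, Complex.norm_ofNat,
    Complex.norm_real, Real.norm_eq_abs]
  have h4 : (4 : ℝ) ^ Fintype.card ι = 2 ^ Fintype.card ι * 2 ^ Fintype.card ι := by
    rw [← mul_pow]
    norm_num
  rw [h4]
  have h5 := mul_le_mul hP hQ (norm_nonneg _) (by positivity)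
  have h6 := mul_le_mul_of_nonneg_left h5 (show 0 ≤ 2 * |(conj w * S1 a d z).im| by positivity)
  calc _ ≤ 2 * |(conj w * S1 a d z).im| * (2 ^ Fintype.card ι * 2 ^ Fintype.card ι) := h6
    _ = _ := by ring

end

end Pool.Agent.R385.SD
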