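import Mathlib

/-!
# Small values of polynomials on the unit circle
-/

set_option autoImplicit false

namespace Pool.Agent.R385.SD

open MeasureTheory Polynomial

lemma circle_dist (θ : UnitAddCircle) : 4 * ‖θ‖ ≤ ‖(AddCircle.toCircle θ : ℂ) - 1‖ := by
  obtain ⟨x, rfl⟩ := QuotientAddGroup.mk_surjective θ
  -- reduce to `|x| ≤ 1/2`
  set y : ℝ := x - round x with hy
  have hxy : (QuotientAddGroup.mk x : UnitAddCircle) = ((y : ℝ) : UnitAddCircle) := by
    have h1 : ((round x : ℝ) : UnitAddCircle) = 0 := by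
      rw [AddCircle.coe_eq_zero_iff]
      exact ⟨round x, by simp⟩
    rw [hy]
    show ((x : ℝ) : UnitAddCircle) = _
    rw [AddCircle.coe_sub, h1, sub_zero]
  have hy2 : |y| ≤ 1 / 2 := by
    rw [hy]
    exact abs_sub_round x
  rw [hxy]
  have hn : ‖((y : ℝ) : UnitAddCircle)‖ = |y| := by
    rw [UnitAddCircle.norm_eq]
    have : round y = 0 := by
      rw [hy]
      have h2 : x - (round x : ℝ) = x - ((round x : ℤ) : ℝ) := rfl
      rw [round_sub_intCast, sub_self]
    rw [this]
    simp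
  rw [hn]
  have h1 : (AddCircle.toCircle ((y : ℝ) : UnitAddCircle) : ℂ) =
      Complex.exp ((2 * Real.pi * y : ℝ) * Complex.I) := by
    rw [AddCircle.toCircle_apply_mk, Circle.coe_exp]
    congr 1
    push_cast
    ring
  rw [h1]
  have h2 : ‖Complex.exp ((2 * Real.pi * y : ℝ) * Complex.I) - 1‖ = 2 * |Real.sin (Real.pi * y)| := by
    have h3 := Complex.norm_exp_I_mul_ofReal_sub_one (2 * Real.pi * y)
    rw [mul_comm Complex.I] at h3
    rw [h3]
    rw [Real.norm_eq_abs, abs_mul, abs_two]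
    congr 3
    ring
  rw [h2]
  have hpi := Real.pi_pos
  have h3 : 2 * |y| ≤ |Real.sin (Real.pi * y)| := by
    rcases le_total 0 y with h | h
    · rw [abs_of_nonneg h] at hy2 ⊢
      have h4 := Real.mul_le_sin (x := Real.pi * y) (by positivity) (by nlinarith)
      have h5 : 2 / Real.pi * (Real.pi * y) = 2 * y := by field_simp
      rw [h5] at h4
      exact h4.trans (le_abs_self _)
    · rw [abs_of_nonpos h] at hy2 ⊢
      have h4 := Real.mul_le_sin (x := Real.pi * (-y)) (by nlinarith) (by nlinarith)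
      have h5 : 2 / Real.pi * (Real.pi * (-y)) = 2 * (-y) := by field_simp
      rw [h5, show Real.pi * -y = -(Real.pi * y) by ring, Real.sin_neg] at h4
      exact h4.trans (neg_le_abs _)
  linarith

lemma near_point (ζ : ℂ) (r : ℝ) :
    volume {θ : UnitAddCircle | ‖(AddCircle.toCircle θ : ℂ) - ζ‖ < r} ≤ ENNReal.ofReal r := by
  rcases Set.eq_empty_or_nonempty {θ : UnitAddCircle | ‖(AddCircle.toCircle θ : ℂ) - ζ‖ < r} with h | ⟨θ₀, h0⟩
  · rw [h, measure_empty]
    exact bot_le
  · have h1 : {θ : UnitAddCircle | ‖(AddCircle.toCircle θ : ℂ) - ζ‖ < r} ⊆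
        Metric.closedBall θ₀ (r / 2) := by
      intro θ hθ
      rw [Metric.mem_closedBall, dist_eq_norm]
      have h2 := circle_dist (θ - θ₀)
      have h3 : ‖(AddCircle.toCircle (θ - θ₀) : ℂ) - 1‖ =
          ‖(AddCircle.toCircle θ : ℂ) - (AddCircle.toCircle θ₀ : ℂ)‖ := by
        have h4 : (AddCircle.toCircle θ : ℂ) =
            (AddCircle.toCircle (θ - θ₀) : ℂ) * (AddCircle.toCircle θ₀ : ℂ) := by
          rw [← Circle.coe_mul, ← AddCircle.toCircle_add, sub_add_cancel]
        have h5 : ‖(AddCircle.toCircle θ₀ : ℂ)‖ = 1 := Circle.norm_coe _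
        rw [h4, ← sub_one_mul, norm_mul, h5, mul_one]
      have h6 : ‖(AddCircle.toCircle θ : ℂ) - (AddCircle.toCircle θ₀ : ℂ)‖ < 2 * r := by
        have h7 : (AddCircle.toCircle θ : ℂ) - (AddCircle.toCircle θ₀ : ℂ) =
          ((AddCircle.toCircle θ : ℂ) - ζ) - ((AddCircle.toCircle θ₀ : ℂ) - ζ) := by ring
        rw [h7]
        refine (norm_sub_le _ _).trans_lt ?_
        have h8 : ‖(AddCircle.toCircle θ : ℂ) - ζ‖ < r := hθ
        have h9 : ‖(AddCircle.toCircle θ₀ : ℂ) - ζ‖ < r := h0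
        linarith
      rw [h3] at h2
      linarith
    refine (measure_mono h1).trans ?_
    rw [AddCircle.volume_closedBall]
    refine ENNReal.ofReal_le_ofReal ?_
    refine (min_le_right _ _).trans ?_
    linarith

lemma fac_lower {z ζ : ℂ} (hz : ‖z‖ = 1) (hζ : ζ ≠ 0) {r : ℝ} (hr : 0 ≤ r) (hr1 : r ≤ 1)
    (h : r ≤ ‖z - ζ‖) : r / 2 ≤ ‖z - ζ‖ / ‖ζ‖ := by
  have h0 : 0 < ‖ζ‖ := norm_pos_iff.2 hζ
  rw [le_div_iff₀ h0]
  rcases le_total ‖ζ‖ 2 with h1 | h1
  · nlinarith
  · have h2 : ‖ζ‖ - 1 ≤ ‖z - ζ‖ := by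
      have := norm_sub_norm_le ζ z
      rw [hz, norm_sub_rev] at this
      exact this
    nlinarith

/-- the sublevel sets of a polynomial on the circle -/
theorem sublevel (G : ℂ[X]) {m : ℕ} (hm : G.natDegree ≤ m) {g : ℝ} (hg : 0 < g)
    (hG : g ≤ ‖G.eval 0‖) {r : ℝ} (hr : 0 < r) (hr1 : r ≤ 1) :
    volume {θ : UnitAddCircle | ‖G.eval (AddCircle.toCircle θ : ℂ)‖ < g * (r / 2) ^ m} ≤
      ENNReal.ofReal (m * r) := by
  classical
  have hG0 : G ≠ 0 := by
    rintro rfl
    simp at hG
    linarith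
  have hsp : G = C G.leadingCoeff * (G.roots.map fun a => X - C a).prod :=
    ((IsAlgClosed.splits G).eq_prod_roots)
  have hev : ∀ z : ℂ, ‖G.eval z‖ = ‖G.leadingCoeff‖ * (G.roots.map fun a => ‖z - a‖).prod := by
    intro z
    conv_lhs => rw [hsp]
    rw [eval_mul, eval_C, norm_mul]
    congr 1
    rw [eval_multiset_prod, Multiset.map_map]
    have : ∀ s : Multiset ℂ, ‖(s.map ((fun p => eval z p) ∘ fun a => X - C a)).prod‖ =
        (s.map fun a => ‖z - a‖).prod := by
      intro s
      induction s using Multiset.induction_on with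
      | empty => simp
      | cons a s ih =>
        rw [Multiset.map_cons, Multiset.prod_cons, norm_mul, ih, Multiset.map_cons,
          Multiset.prod_cons]
        simp
    exact this _
  have hne : ∀ a ∈ G.roots, a ≠ 0 := by
    rintro a ha rfl
    have := (mem_roots'.1 ha).2
    rw [IsRoot.def] at this
    rw [this, norm_zero] at hG
    linarith
  have hcard : Multiset.card G.roots ≤ m := (card_roots' G).trans hm
  -- the key inclusion
  have hsub : {θ : UnitAddCircle | ‖G.eval (AddCircle.toCircle θ : ℂ)‖ < g * (r / 2) ^ m} ⊆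
      ⋃ a ∈ G.roots.toFinset, {θ : UnitAddCircle | ‖(AddCircle.toCircle θ : ℂ) - a‖ < r} := by
    intro θ hθ
    by_contra hcon
    have hall : ∀ a ∈ G.roots, r ≤ ‖(AddCircle.toCircle θ : ℂ) - a‖ := by
      intro a ha
      by_contra hlt
      push Not at hlt
      exact hcon (Set.mem_iUnion₂.2 ⟨a, Multiset.mem_toFinset.2 ha, hlt⟩)
    have hz : ‖(AddCircle.toCircle θ : ℂ)‖ = 1 := Circle.norm_coe _
    have key : ∀ s : Multiset ℂ, (∀ a ∈ s, a ≠ 0) → (∀ a ∈ s, r ≤ ‖(AddCircle.toCircle θ : ℂ) - a‖) →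
        (r / 2) ^ (Multiset.card s) * (s.map fun a => ‖(0 : ℂ) - a‖).prod ≤
          (s.map fun a => ‖(AddCircle.toCircle θ : ℂ) - a‖).prod := by
      intro s
      induction s using Multiset.induction_on with
      | empty =>
        intro _ _
        rw [Multiset.card_zero, pow_zero, Multiset.map_zero, Multiset.map_zero, one_mul]
      | cons a s ih =>
        intro h1 h2
        have h3 := ih (fun b hb => h1 b (Multiset.mem_cons_of_mem hb))
          (fun b hb => h2 b (Multiset.mem_cons_of_mem hb))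
        have ha0 := h1 a (Multiset.mem_cons_self a s)
        have h4 := fac_lower hz ha0 hr.le hr1 (h2 a (Multiset.mem_cons_self a s))
        have h0 : 0 < ‖a‖ := norm_pos_iff.2 ha0
        rw [le_div_iff₀ h0] at h4
        rw [Multiset.card_cons, Multiset.map_cons, Multiset.prod_cons, Multiset.map_cons,
          Multiset.prod_cons, pow_succ, zero_sub, norm_neg]
        have h5 : 0 ≤ (s.map fun a => ‖(0 : ℂ) - a‖).prod := by
          refine Multiset.prod_nonneg fun x hx => ?_
          obtain ⟨y, -, rfl⟩ := Multiset.mem_map.1 hx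
          exact norm_nonneg _
        calc (r / 2) ^ (Multiset.card s) * (r / 2) * (‖a‖ * (s.map fun a => ‖(0 : ℂ) - a‖).prod)
            = (r / 2 * ‖a‖) * ((r / 2) ^ (Multiset.card s) * (s.map fun a => ‖(0 : ℂ) - a‖).prod) := by
              ring
          _ ≤ ‖(AddCircle.toCircle θ : ℂ) - a‖ *
              (s.map fun a => ‖(AddCircle.toCircle θ : ℂ) - a‖).prod :=
              mul_le_mul h4 h3 (by positivity) (norm_nonneg _)
    have h1 := key G.roots hne hall
    have h2 : g * (r / 2) ^ m ≤ ‖G.eval (AddCircle.toCircle θ : ℂ)‖ := by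
      rw [hev]
      have h3 : g ≤ ‖G.leadingCoeff‖ * (G.roots.map fun a => ‖(0 : ℂ) - a‖).prod := by
        rw [← hev]
        exact hG
      have h4 : (r / 2) ^ m ≤ (r / 2) ^ (Multiset.card G.roots) :=
        pow_le_pow_of_le_one (by linarith) (by linarith) hcard
      calc g * (r / 2) ^ m ≤ (‖G.leadingCoeff‖ * (G.roots.map fun a => ‖(0 : ℂ) - a‖).prod) *
            (r / 2) ^ (Multiset.card G.roots) :=
            mul_le_mul h3 h4 (by positivity) (hg.le.trans h3)
        _ = ‖G.leadingCoeff‖ * ((r / 2) ^ (Multiset.card G.roots) *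
            (G.roots.map fun a => ‖(0 : ℂ) - a‖).prod) := by ring
        _ ≤ _ := mul_le_mul_of_nonneg_left h1 (norm_nonneg _)
    have h5 : ‖G.eval (AddCircle.toCircle θ : ℂ)‖ < g * (r / 2) ^ m := hθ
    linarith
  refine (measure_mono hsub).trans ((measure_biUnion_finset_le _ _).trans ?_)
  refine (Finset.sum_le_sum fun a _ => near_point a r).trans ?_
  rw [Finset.sum_const, nsmul_eq_mul]
  have h6 : (G.roots.toFinset.card : ℝ) ≤ m := by
    exact Nat.cast_le.2 ((Multiset.toFinset_card_le _).trans hcard)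
  rw [← ENNReal.ofReal_natCast, ← ENNReal.ofReal_mul (Nat.cast_nonneg _)]
  exact ENNReal.ofReal_le_ofReal (mul_le_mul_of_nonneg_right h6 hr.le)

end Pool.Agent.R385.SD
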