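import Pool.Agent.R385.SD.CF

/-!
# The Euler factors of a variety over a number field
-/

set_option autoImplicit false
set_option linter.unusedSectionVars false

namespace Pool.Agent.R385.SD

open MeasureTheory Filter Topology NumberField IsDedekindDomain
open Pool.Agent.TH339.MP
open Pool.Agent.R409.ED
open Pool.Agent.R409.EV (nal bT bT_bound norm_nal nal_cpow IsParameter)
open scoped ENNReal ComplexConjugate

variable {K : Type} [Field K] [NumberField K] {i N : ℕ}
  {α : HeightOneSpectrum (𝓞 K) → Fin N → ℂ}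

/-- the logarithm of the Euler factor at `p`, over the circle -/
lemma hl_LL (h : ∀ v j, ‖α v j‖ ≤ (Ideal.absNorm v.asIdeal : ℝ) ^ ((i : ℝ) / 2))
    (p : Nat.Primes) (x : ℝ) :
    hl (bT i α) p ((x : ℝ) : UnitAddCircle) = ∑ v ∈ Sp p, ∑ j : Fin N,
      -Complex.log (1 - (nal i α v j * (((p : ℕ) : ℂ)⁻¹) ^ dg v) * ex x ^ dg v) := by
  have hlog : 0 < Real.log (p : ℕ) := Real.log_pos (by exact_mod_cast p.2.one_lt)
  have hp0 : ((p : ℕ) : ℂ) ≠ 0 := by exact_mod_cast p.2.ne_zero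
  obtain ⟨τ, hτ⟩ : ∃ τ : ℝ, -(Real.log (p : ℕ) / (2 * Real.pi)) * τ = x := by
    refine ⟨-(2 * Real.pi / Real.log (p : ℕ)) * x, ?_⟩
    field_simp
  have h1 := hl_at h p τ
  rw [hτ] at h1
  rw [h1]
  refine Finset.sum_congr rfl fun v hv => ?_
  rw [mem_Sp] at hv
  unfold lv
  refine Finset.sum_congr rfl fun j _ => ?_
  rw [nm_cpow, hv]
  have h6 : (((p : ℕ) : ℂ)) ^ (-(1 + (τ : ℂ) * Complex.I)) = ((p : ℕ) : ℂ)⁻¹ * ex x := by
    have h7 : (((p : ℕ) : ℂ)) ^ (-(1 + (τ : ℂ) * Complex.I)) = ((p : ℕ) : ℂ)⁻¹ *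
        Complex.exp (-(Real.log (p : ℕ) * τ : ℝ) * Complex.I) := by
      rw [neg_add, Complex.cpow_add _ _ hp0, Complex.cpow_neg_one, Complex.cpow_def_of_ne_zero hp0,
        ← Complex.natCast_log]
      congr 2
      push_cast
      ring
    rw [h7]
    unfold ex
    congr 2
    rw [← hτ]
    have hpi : (Real.pi : ℂ) ≠ 0 := by exact_mod_cast Real.pi_pos.ne'
    push_cast
    field_simp
  rw [h6, mul_pow]
  congr 3
  ring

lemma rep_of (h : ∀ v j, ‖α v j‖ ≤ (Ideal.absNorm v.asIdeal : ℝ) ^ ((i : ℝ) / 2))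
    {p : Nat.Primes} {v₀ : HeightOneSpectrum (𝓞 K)} (hv : v₀ ∈ (Sp p : Finset _)) {j₀ : Fin N}
    (hj : nal i α v₀ j₀ ≠ 0) : Rep (bT i α) p (Module.finrank ℚ K * N) := by
  classical
  have hp0 : ((p : ℕ) : ℂ) ≠ 0 := by exact_mod_cast p.2.ne_zero
  set S : Finset (HeightOneSpectrum (𝓞 K) × Fin N) :=
    ((Sp p : Finset (HeightOneSpectrum (𝓞 K))) ×ˢ (Finset.univ : Finset (Fin N))).filter
      fun q => nal i α q.1 q.2 ≠ 0 with hS
  have hp2 : ‖((p : ℕ) : ℂ)⁻¹‖ ≤ 1 / 2 := by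
    rw [norm_inv, Complex.norm_natCast, inv_eq_one_div]
    refine one_div_le_one_div_of_le (by norm_num) ?_
    exact_mod_cast p.2.two_le
  set a : HeightOneSpectrum (𝓞 K) × Fin N → ℂ :=
    fun q => nal i α q.1 q.2 * (((p : ℕ) : ℂ)⁻¹) ^ dg q.1 with ha
  have hainst : Nonempty {q // q ∈ S} := ⟨⟨(v₀, j₀), by
    rw [hS, Finset.mem_filter, Finset.mem_product]
    exact ⟨⟨hv, Finset.mem_univ _⟩, hj⟩⟩⟩
  have hne : (Set.univ : Set {q // q ∈ S}).Nonempty := Set.univ_nonempty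
  -- transport to a type in `Type`
  refine ⟨{q // q ∈ S}, inferInstance, Classical.decEq _, hainst, fun q => a q.1,
    fun q => dg q.1.1, ?_, ?_, ?_, ?_, ?_⟩
  · rintro ⟨q, hq⟩
    simp only [ha]
    rw [norm_mul, norm_pow]
    have h1 := norm_nal h q.1 q.2
    have h2 : ‖((p : ℕ) : ℂ)⁻¹‖ ^ dg q.1 ≤ 1 / 2 :=
      (pow_le_of_le_one (norm_nonneg _) (hp2.trans (by norm_num)) (dg_pos q.1).ne').trans hp2
    nlinarith [norm_nonneg (nal i α q.1 q.2), pow_nonneg (norm_nonneg ((p : ℕ) : ℂ)⁻¹) (dg q.1)]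
  · rintro ⟨q, hq⟩
    rw [hS, Finset.mem_filter] at hq
    exact mul_ne_zero hq.2 (pow_ne_zero _ (inv_ne_zero hp0))
  · rintro ⟨q, hq⟩
    exact dg_pos q.1
  · rw [Finset.sum_coe_sort S (fun q => dg q.1)]
    calc ∑ q ∈ S, dg q.1 ≤ ∑ q ∈ (Sp p : Finset (HeightOneSpectrum (𝓞 K))) ×ˢ
          (Finset.univ : Finset (Fin N)), dg q.1 :=
          Finset.sum_le_sum_of_subset (Finset.filter_subset _ _)
      _ = ∑ v ∈ (Sp p : Finset (HeightOneSpectrum (𝓞 K))), N * dg v := by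
          rw [Finset.sum_product]
          refine Finset.sum_congr rfl fun v _ => ?_
          simp only [Finset.sum_const, Finset.card_univ, Fintype.card_fin, smul_eq_mul]
      _ ≤ Module.finrank ℚ K * N := by
          rw [← Finset.mul_sum, mul_comm]
          exact Nat.mul_le_mul_right _ (sum_dg_le p)
  · intro x
    rw [hl_LL h]
    unfold LL
    rw [Finset.sum_coe_sort S (fun q => -Complex.log (1 - a q * ex x ^ dg q.1)),
      ← Finset.sum_product' (Sp p : Finset (HeightOneSpectrum (𝓞 K))) (Finset.univ : Finset (Fin N))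
      (fun v j => -Complex.log (1 - (nal i α v j * (((p : ℕ) : ℂ)⁻¹) ^ dg v) * ex x ^ dg v))]
    symm
    refine Finset.sum_subset (Finset.filter_subset _ _) fun q hq hnq => ?_
    have h0 : nal i α q.1 q.2 = 0 := by
      by_contra h0
      exact hnq (Finset.mem_filter.2 ⟨hq, h0⟩)
    simp only [ha]
    rw [h0]
    simp

/-- for almost all primes the Euler factor is not constant -/
lemma rep_infinite {n d : ℕ} {X : Set (MvPolynomial (Fin n) (𝓞 K))} (hN : 0 < N)
    (hα : IsParameter X d i α) :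
    {p : Nat.Primes | Rep (bT i α) p (Module.finrank ℚ K * N)}.Infinite := by
  classical
  have hfin := Filter.eventually_cofinite.1 hα.1
  set F := hfin.toFinset with hF
  have hsub : (Set.univ \ (↑(F.image pr) : Set Nat.Primes)) ⊆
      {p : Nat.Primes | Rep (bT i α) p (Module.finrank ℚ K * N)} := by
    rintro p ⟨-, hp⟩
    obtain ⟨v, hv⟩ := exists_over (K := K) p
    have hv' := (mem_iff p v).1 hv
    have hpr := (mem_Sp p v).1 hv'
    have hgood : Pool.Agent.TH958.BV.IsFrobenius X d i v (α v) := by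
      by_contra hbad
      apply hp
      rw [Finset.mem_coe, Finset.mem_image]
      exact ⟨v, hfin.mem_toFinset.2 hbad, hpr⟩
    obtain ⟨β, hβ1, hβ2, -⟩ := hgood
    have hq : 0 < Ideal.absNorm v.asIdeal := by
      have := two_le_nm v
      unfold nm at this
      omega
    refine rep_of hα.2 hv' (j₀ := ⟨0, hN⟩) ?_
    unfold nal
    refine mul_ne_zero (fun h0 => ?_) ?_
    · have h3 := hβ2 i (α v ⟨0, hN⟩) (by
        rw [hβ1]
        exact Multiset.mem_map.2 ⟨⟨0, hN⟩, Finset.mem_univ_val _, rfl⟩)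
      rw [h0, norm_zero] at h3
      have h4 : (0 : ℝ) < (Ideal.absNorm v.asIdeal : ℝ) ^ ((i : ℝ) / 2) :=
        Real.rpow_pos_of_pos (by exact_mod_cast hq) _
      linarith
    · rw [Complex.cpow_ne_zero_iff]
      exact Or.inl (Nat.cast_ne_zero.2 hq.ne')
  refine Set.Infinite.mono hsub ?_
  exact Set.infinite_univ.sdiff (Finset.finite_toSet _)

end Pool.Agent.R385.SD
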